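import Pool.Agent.P.MP_c9a3a4_mp.Step

set_option autoImplicit false

namespace Pool.Agent.P.MP_c9a3a4_mp

open Finset Filter Topology ComplexConjugate

lemma rs_mono {V : ℤ → ℝ} {E a b : ℝ} {N : ℕ} (hE : ∀ n < N, 2 ≤ E - V (n : ℕ)) (ha : 0 ≤ a)
    (hab : a ≤ b) : ∀ n ≤ N, a ≤ rs V E a b n ∧ rs V E a b n ≤ rs V E a b (n + 1) := by
  intro n
  induction n with
  | zero => intro _; exact ⟨le_rfl, hab⟩
  | succ k ih =>
    intro hk
    obtain ⟨h1, h2⟩ := ih (by omega)
    refine ⟨h1.trans h2, ?_⟩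
    have h3 := hE k (by omega)
    have : rs V E a b (k + 1 + 1) = (E - V k) * rs V E a b (k + 1) - rs V E a b k := rfl
    rw [this]
    nlinarith

lemma rs_one_one (V : ℤ → ℝ) (E : ℝ) (n : ℕ) : rs V E 1 1 n = uu V E n + vv V E n := by
  have key : ∀ n : ℕ, rs V E 1 1 n = uu V E n + vv V E n ∧
      rs V E 1 1 (n + 1) = uu V E (n + 1) + vv V E (n + 1) := by
    intro n
    induction n with
    | zero => simp [rs]
    | succ k ih =>
      refine ⟨ih.2, ?_⟩
      have : rs V E 1 1 (k + 1 + 1) = (E - V k) * rs V E 1 1 (k + 1) - rs V E 1 1 k := rfl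
      rw [this, ih.1, ih.2, uu_rec, vv_rec]; ring
  exact (key n).1

lemma exists_trace (V : ℤ → ℝ) {N : ℕ} (hN : 2 ≤ N) :
    ∃ E : ℝ, uu V E (N + 1) + vv V E N = 1 := by
  set B : ℝ := 2 + ∑ n ∈ range N, |V n| with hB
  have hbig : ∀ E, B ≤ E → ∀ n < N, 2 ≤ E - V (n : ℕ) := by
    intro E hE n hn
    have h1 : |V n| ≤ ∑ n ∈ range N, |V n| :=
      single_le_sum (f := fun n : ℕ => |V n|) (fun _ _ => abs_nonneg _) (mem_range.2 hn)
    have h2 := le_abs_self (V n)
    linarith
  have cu : ∀ n, Continuous fun E => uu V E n := fun n =>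
    continuous_uu (V := fun _ => V) (fun _ => continuous_const) continuous_id n
  have cv : ∀ n, Continuous fun E => vv V E n := fun n =>
    continuous_vv (V := fun _ => V) (fun _ => continuous_const) continuous_id n
  have upos : ∀ E, B ≤ E → ∀ k, 1 ≤ k → k ≤ N → 1 ≤ uu V E k := by
    intro E hE k hk1 hk2
    have hm := rs_mono (hbig E hE) le_rfl zero_le_one
    induction k, hk1 using Nat.le_induction with
    | base => simp
    | succ j _ ih => exact (ih (by omega)).trans (hm j (by omega)).2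
  -- a point with large trace
  have hhi : 1 ≤ uu V B (N + 1) + vv V B N := by
    have h1 := (rs_mono (hbig B le_rfl) le_rfl zero_le_one N le_rfl).2
    have h2 := (rs_mono (hbig B le_rfl) zero_le_one le_rfl N le_rfl).1
    rw [rs_one_one] at h2
    change uu V B N ≤ uu V B (N + 1) at h1
    linarith
  -- a point with negative trace
  let Z : Set ℝ := ⋃ k ∈ Finset.Icc 1 N, {E | uu V E k ≤ 0}
  have hZc : IsClosed Z :=
    isClosed_biUnion_finset fun k _ => isClosed_le (cu k) continuous_const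
  have hZn : Z.Nonempty := by
    refine ⟨V 0, Set.mem_biUnion (x := 2) (by simp [hN]) ?_⟩
    have := uu_rec V (V 0) 0
    simp only [Set.mem_ofPred_eq]
    simp only [zero_add] at this
    rw [this]; simp
  have hZb : BddAbove Z := by
    refine ⟨B, fun E hE => ?_⟩
    by_contra hlt
    obtain ⟨k, hk, hk2⟩ := Set.mem_iUnion₂.1 hE
    have := upos E (le_of_not_ge hlt) k (Finset.mem_Icc.1 hk).1 (Finset.mem_Icc.1 hk).2
    simp only [Set.mem_ofPred_eq] at hk2
    linarith
  have hmem := hZc.csSup_mem hZn hZb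
  set E₁ := sSup Z with hE₁
  have hnn : ∀ k ≤ N, 0 ≤ uu V E₁ k := by
    intro k hk
    rcases Nat.eq_zero_or_pos k with rfl | hk0
    · simp
    have t : Tendsto (fun E => uu V E k) (𝓝[>] E₁) (𝓝 (uu V E₁ k)) :=
      ((cu k).tendsto E₁).mono_left nhdsWithin_le_nhds
    refine ge_of_tendsto t ?_
    filter_upwards [self_mem_nhdsWithin] with E hE
    by_contra hneg
    have : E ∈ Z := Set.mem_biUnion (x := k) (by simp [hk, Nat.succ_le_of_lt hk0])
      (le_of_not_ge hneg)
    exact absurd (le_csSup hZb this) (not_le.2 hE)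
  obtain ⟨k, hk, hk2⟩ := Set.mem_iUnion₂.1 hmem
  obtain ⟨hk3, hk4⟩ := Finset.mem_Icc.1 hk
  have hk0 : uu V E₁ k = 0 := le_antisymm hk2 (hnn k hk4)
  obtain ⟨j, rfl⟩ : ∃ j, k = j + 1 := ⟨k - 1, by omega⟩
  have hrec := uu_rec V E₁ j
  have hw := wronski V E₁ (j + 1)
  rw [hk0] at hrec hw
  have hj := hnn j (by omega)
  have hneg : uu V E₁ (j + 2) < 0 := by
    rcases lt_or_eq_of_le (show uu V E₁ (j + 2) ≤ 0 by linarith) with h | h
    · exact h
    · have e : j + 1 + 1 = j + 2 := rfl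
      rw [e, h] at hw; simp at hw
  have hkN : j + 1 = N := by
    by_contra hne
    have := hnn (j + 2) (by omega)
    linarith
  have hlo : uu V E₁ (N + 1) + vv V E₁ N ≤ 1 := by
    subst hkN
    have e : j + 1 + 1 = j + 2 := rfl
    rw [e] at hw ⊢
    have : vv V E₁ (j + 1) < 0 := by
      by_contra h
      push Not at h
      nlinarith
    linarith
  have := intermediate_value_univ E₁ B (f := fun E => uu V E (N + 1) + vv V E N)
    ((cu _).add (cv _)) ⟨hlo, hhi⟩
  exact this

lemma exists_good (V : ℤ → ℝ) {N : ℕ} (hN : 2 ≤ N) (hV : ∀ n : ℤ, V (n + N) = V n) :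
    ∃ a b : ℝ, a < b ∧ Good (fun y : Set.Icc a b => (y : ℝ)) V N := by
  obtain ⟨E₀, hE₀⟩ := exists_trace V hN
  have cu : ∀ n, Continuous fun E => uu V E n := fun n =>
    continuous_uu (V := fun _ => V) (fun _ => continuous_const) continuous_id n
  have cv : ∀ n, Continuous fun E => vv V E n := fun n =>
    continuous_vv (V := fun _ => V) (fun _ => continuous_const) continuous_id n
  let A1 : ℝ → ℝ := fun E => -uu V E N
  let A2 : ℝ → ℝ := fun E => uu V E (N + 1) - vv V E N
  let A3 : ℝ → ℝ := fun E => vv V E (N + 1)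
  have c1 : Continuous A1 := (cu N).neg
  have c2 : Continuous A2 := (cu _).sub (cv _)
  have c3 : Continuous A3 := cv _
  let m : ℝ → ℂ := fun E => fix (A1 E) (A2 E) (A3 E)
  have hd0 : 0 < 4 * A1 E₀ * A3 E₀ - A2 E₀ ^ 2 := by
    have := wronski V E₀ N
    have e : 4 * A1 E₀ * A3 E₀ - A2 E₀ ^ 2 = 3 := by
      simp only [A1, A2, A3]
      linear_combination 4 * this - (uu V E₀ (N + 1) + vv V E₀ N + 1) * hE₀
    rw [e]; norm_num
  have hgood : ∀ E, 0 < 4 * A1 E * A3 E - A2 E ^ 2 →
      0 < (m E).im ∧ aa V N E (m E) = 0 ∧ ContinuousAt m E := by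
    intro E hE
    refine ⟨(fix_spec hE).1, ?_, continuousAt_fix c1 c2 c3 ?_⟩
    · rw [aa_eq]; exact (fix_spec hE).2
    · intro h0
      rw [h0] at hE
      nlinarith [sq_nonneg (A2 E)]
  obtain ⟨him, hbl, hmc⟩ := hgood E₀ hd0
  have hzz : ∀ b, (zz m (E₀, b)).im ≠ 0 ∧ aa V N E₀ (zz m (E₀, b)) = 0 := by
    intro b
    cases b
    · exact ⟨by simpa [zz] using him.ne', by simpa [zz] using aa_conj hbl⟩
    · exact ⟨by simpa [zz] using him.ne', by simpa [zz] using hbl⟩
  have cb : ∀ b n, ContinuousAt (fun E => bl id V m (E, b) n) E₀ := by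
    intro b n
    unfold bl
    refine continuousAt_ss (V := fun _ => V) (fun _ => continuous_const) continuous_id ?_ n
    exact continuousAt_zz (M := fun _ => m) (x := fun E => (E, b))
      (Continuous.continuousAt (by fun_prop)) hmc
  have cb1 : ∀ b n, ContinuousAt (fun p : ℝ × ℝ => bl id V m (p.1, b) n) (E₀, E₀) := fun b n =>
    ContinuousAt.comp (f := fun p : ℝ × ℝ => p.1) (x := (E₀, E₀)) (cb b n) continuousAt_fst
  have cb2 : ∀ b n, ContinuousAt (fun p : ℝ × ℝ => bl id V m (p.2, b) n) (E₀, E₀) := fun b n =>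
    ContinuousAt.comp (f := fun p : ℝ × ℝ => p.2) (x := (E₀, E₀)) (cb b n) continuousAt_snd
  have ev1 : ∀ᶠ p : ℝ × ℝ in 𝓝 (E₀, E₀), 0 < 4 * A1 p.1 * A3 p.1 - A2 p.1 ^ 2 := by
    have hc : Continuous fun p : ℝ × ℝ => 4 * A1 p.1 * A3 p.1 - A2 p.1 ^ 2 := by fun_prop
    exact hc.continuousAt.eventually (lt_mem_nhds hd0)
  have ev2 : ∀ b, ∀ᶠ p : ℝ × ℝ in 𝓝 (E₀, E₀),
      (∑ n ∈ range N, bl id V m (p.1, b) (n + 1) * conj (bl id V m (p.2, b) (n + 1))) *
        (bl id V m (p.1, b) N + bl id V m (p.2, b) N) ≠ 0 := by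
    intro b
    refine ContinuousAt.eventually_ne (ContinuousAt.mul ?_ ((cb1 b N).add (cb2 b N))) ?_
    · exact tendsto_finsetSum _ fun n _ =>
        (cb1 b (n + 1)).mul (Complex.continuous_conj.continuousAt.comp (cb2 b (n + 1)))
    · refine mul_ne_zero (sum_self_ne_zero V (by omega) _ (hzz b).1) ?_
      have := mu_ne_zero (hzz b).1 (hzz b).2
      intro h0
      apply this
      simp only [bl, id] at h0
      linear_combination h0 / 2
  have ev3 : ∀ᶠ p : ℝ × ℝ in 𝓝 (E₀, E₀),
      bl id V m (p.1, true) N ^ 2 - bl id V m (p.2, false) N ^ 2 ≠ 0 := by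
    refine ContinuousAt.eventually_ne (((cb1 true N).pow 2).sub ((cb2 false N).pow 2)) ?_
    have e := bl_not id V m E₀ true N
    simp only [Bool.not_true] at e
    simp only [e]
    have e1 : bl id V m (E₀, true) N = ss V E₀ (m E₀) N := rfl
    rw [e1]
    have hw : (uu V E₀ (N + 1) : ℂ) * vv V E₀ N - uu V E₀ N * vv V E₀ (N + 1) = 1 := by
      exact_mod_cast wronski V E₀ N
    have ht : (uu V E₀ (N + 1) : ℂ) + vv V E₀ N = 1 := by exact_mod_cast hE₀
    have hq : ss V E₀ (m E₀) N ^ 2 = ss V E₀ (m E₀) N - 1 := by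
      simp only [aa, ss] at hbl ⊢
      linear_combination (-(uu V E₀ N : ℂ)) * hbl - hw +
        (m E₀ * uu V E₀ N + vv V E₀ N) * ht
    rw [← map_pow, hq]
    intro h0
    have h1 := congrArg Complex.im h0
    have h2 := congrArg Complex.re hq
    simp only [pow_two, Complex.sub_im, Complex.conj_im, Complex.one_im, Complex.zero_im,
      Complex.mul_re, Complex.sub_re, Complex.one_re] at h1 h2
    have h3 : (ss V E₀ (m E₀) N).im = 0 := by linarith
    rw [h3] at h2
    nlinarith [sq_nonneg ((ss V E₀ (m E₀) N).re - 1 / 2)]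
  obtain ⟨η, hη, hball⟩ := Metric.eventually_nhds_iff.1
    (ev1.and ((ev2 true).and ((ev2 false).and ev3)))
  have hI : ∀ y y' : Set.Icc E₀ (E₀ + η / 2), dist ((y : ℝ), (y' : ℝ)) (E₀, E₀) < η := by
    intro y y'
    rw [Prod.dist_eq, max_lt_iff, Real.dist_eq, Real.dist_eq, abs_lt, abs_lt]
    obtain ⟨h1, h2⟩ := y.2
    obtain ⟨h3, h4⟩ := y'.2
    refine ⟨⟨?_, ?_⟩, ?_, ?_⟩ <;> simp only <;> linarith
  have hD : Data (fun y : Set.Icc E₀ (E₀ + η / 2) => (y : ℝ)) V N (fun y => m y) :=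
    { pos := by omega
      per := hV
      im_pos := fun y => (hgood y (hball (hI y y)).1).1
      bloch := fun y => (hgood y (hball (hI y y)).1).2.1 }
  refine ⟨E₀, E₀ + η / 2, by linarith, fun y => m y, ?_, hD, ?_⟩
  · exact continuous_iff_continuousAt.2 fun y =>
      ContinuousAt.comp (f := Subtype.val) (hgood y (hball (hI y y)).1).2.2
        continuous_subtype_val.continuousAt
  · intro ι _ x hx hsq
    have hsub : Subsingleton ι := by
      refine ⟨fun i j => hx ?_⟩
      have h1 := hsq i j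
      have h2 := hsq j i
      have o := fun hE => orth (zz_im_ne hD.im_pos (x i)) (hD.aa_zz (x i)) (hD.aa_zz (x j)) hE h1
      rcases hi : x i with ⟨y, b⟩
      rcases hj : x j with ⟨y', b'⟩
      rw [hi, hj] at h1 h2 o
      by_contra hne
      cases b <;> cases b'
      · refine (hball (hI y y')).2.2.1 (o fun hE => hne ?_)
        exact Prod.ext (Subtype.ext hE) rfl
      · exact (hball (hI y' y)).2.2.2 (sub_eq_zero.2 h2)
      · exact (hball (hI y y')).2.2.2 (sub_eq_zero.2 h1)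
      · refine (hball (hI y y')).2.1 (o fun hE => hne ?_)
        exact Prod.ext (Subtype.ext hE) rfl
    refine ⟨lt_of_le_of_lt (Fintype.card_le_one_iff_subsingleton.2 hsub) (by omega),
      fun a ha => funext fun i => ?_⟩
    have := ha 0 (by omega)
    rw [Fintype.sum_subsingleton _ i] at this
    rcases mul_eq_zero.1 this with h | h
    · exact h
    · exfalso
      have h1 := zz_im_ne hD.im_pos (x i)
      simp only [bl, zero_add, ss_one] at h
      rw [pow_eq_zero_iff two_ne_zero] at h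
      rw [h] at h1
      simp at h1

end Pool.Agent.P.MP_c9a3a4_mp
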