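import Mathlib

set_option autoImplicit false

namespace Pool.Agent.P.MP_c9a3a4_mp

open Finset Filter Topology ComplexConjugate

/-- Real solution of the three-term recursion; index `n` stands for the site `n - 1`. -/
def rs (V : ℤ → ℝ) (E a b : ℝ) : ℕ → ℝ
  | 0 => a
  | 1 => b
  | (n + 2) => (E - V n) * rs V E a b (n + 1) - rs V E a b n

/-- Fundamental solution with data `(0, 1)`. -/
def uu (V : ℤ → ℝ) (E : ℝ) : ℕ → ℝ := rs V E 0 1

/-- Fundamental solution with data `(1, 0)`. -/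
def vv (V : ℤ → ℝ) (E : ℝ) : ℕ → ℝ := rs V E 1 0

/-- Complex solution with data `(1, z)`. -/
noncomputable def ss (V : ℤ → ℝ) (E : ℝ) (z : ℂ) (n : ℕ) : ℂ := z * uu V E n + vv V E n

@[simp] lemma uu_zero (V : ℤ → ℝ) (E : ℝ) : uu V E 0 = 0 := rfl
@[simp] lemma uu_one (V : ℤ → ℝ) (E : ℝ) : uu V E 1 = 1 := rfl
@[simp] lemma vv_zero (V : ℤ → ℝ) (E : ℝ) : vv V E 0 = 1 := rfl
@[simp] lemma vv_one (V : ℤ → ℝ) (E : ℝ) : vv V E 1 = 0 := rfl
lemma uu_rec (V : ℤ → ℝ) (E : ℝ) (n : ℕ) :
    uu V E (n + 2) = (E - V n) * uu V E (n + 1) - uu V E n := rfl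
lemma vv_rec (V : ℤ → ℝ) (E : ℝ) (n : ℕ) :
    vv V E (n + 2) = (E - V n) * vv V E (n + 1) - vv V E n := rfl
@[simp] lemma ss_zero (V : ℤ → ℝ) (E : ℝ) (z : ℂ) : ss V E z 0 = 1 := by simp [ss]
@[simp] lemma ss_one (V : ℤ → ℝ) (E : ℝ) (z : ℂ) : ss V E z 1 = z := by simp [ss]
lemma ss_rec (V : ℤ → ℝ) (E : ℝ) (z : ℂ) (n : ℕ) :
    ss V E z (n + 2) = ((E - V n : ℝ) : ℂ) * ss V E z (n + 1) - ss V E z n := by
  simp only [ss, uu_rec, vv_rec]; push_cast; ring

lemma conj_ss (V : ℤ → ℝ) (E : ℝ) (z : ℂ) (n : ℕ) : conj (ss V E z n) = ss V E (conj z) n := by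
  simp [ss]

/-- Discrete Green identity. -/
lemma green {R : Type*} [CommRing R] (s t q r : ℕ → R)
    (hs : ∀ n, s (n + 2) = q n * s (n + 1) - s n) (ht : ∀ n, t (n + 2) = r n * t (n + 1) - t n)
    (N : ℕ) :
    s (N + 1) * t N - s N * t (N + 1) =
      s 1 * t 0 - s 0 * t 1 + ∑ n ∈ range N, (q n - r n) * (s (n + 1) * t (n + 1)) := by
  induction N with
  | zero => simp
  | succ k ih => rw [sum_range_succ, ← add_assoc, ← ih, hs, ht]; ring

lemma green_ss (V V' : ℤ → ℝ) (E E' : ℝ) (z z' : ℂ) (N : ℕ) :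
    ss V E z (N + 1) * ss V' E' z' N - ss V E z N * ss V' E' z' (N + 1) =
      z - z' + ∑ n ∈ range N, (((E - V n) - (E' - V' n) : ℝ) : ℂ) *
        (ss V E z (n + 1) * ss V' E' z' (n + 1)) := by
  have h := green (ss V E z) (ss V' E' z') (fun n => ((E - V n : ℝ) : ℂ))
    (fun n => ((E' - V' n : ℝ) : ℂ)) (ss_rec V E z) (ss_rec V' E' z') N
  rw [h]
  simp

lemma green_uu (V V' : ℤ → ℝ) (E E' : ℝ) (N : ℕ) :
    uu V E (N + 1) * uu V' E' N - uu V E N * uu V' E' (N + 1) =
      ∑ n ∈ range N, ((E - V n) - (E' - V' n)) * (uu V E (n + 1) * uu V' E' (n + 1)) := by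
  have h := green (uu V E) (uu V' E') (fun n => (E - V n))
    (fun n => (E' - V' n)) (uu_rec V E) (uu_rec V' E') N
  rw [h]
  simp

lemma wronski (V : ℤ → ℝ) (E : ℝ) (N : ℕ) :
    uu V E (N + 1) * vv V E N - uu V E N * vv V E (N + 1) = 1 := by
  have h := green (uu V E) (vv V E) (fun n => (E - V n))
    (fun n => (E - V n)) (uu_rec V E) (vv_rec V E) N
  rw [h]
  simp

/-- The defect of the Bloch condition. -/
noncomputable def aa (V : ℤ → ℝ) (N : ℕ) (E : ℝ) (z : ℂ) : ℂ :=
  ss V E z (N + 1) - z * ss V E z N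

lemma aa_eq (V : ℤ → ℝ) (N : ℕ) (E : ℝ) (z : ℂ) :
    aa V N E z = (-uu V E N : ℝ) * z ^ 2 + (uu V E (N + 1) - vv V E N : ℝ) * z
      + (vv V E (N + 1) : ℝ) := by
  simp only [aa, ss]; push_cast; ring

lemma aa_conj {V : ℤ → ℝ} {N : ℕ} {E : ℝ} {z : ℂ} (h : aa V N E z = 0) :
    aa V N E (conj z) = 0 := by
  have := congrArg conj h
  simpa [aa, conj_ss] using this

lemma ss_shift {V : ℤ → ℝ} {N : ℕ} {E : ℝ} {z : ℂ} (hV : ∀ n : ℤ, V (n + N) = V n)
    (h : aa V N E z = 0) (n : ℕ) : ss V E z (n + N) = ss V E z N * ss V E z n := by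
  have key : ∀ n : ℕ, ss V E z (n + N) = ss V E z N * ss V E z n ∧
      ss V E z (n + 1 + N) = ss V E z N * ss V E z (n + 1) := by
    intro n
    induction n with
    | zero =>
      refine ⟨by simp, ?_⟩
      have : 0 + 1 + N = N + 1 := by omega
      rw [this]
      simp only [aa] at h
      simp only [zero_add, ss_one]
      linear_combination h
    | succ k ih =>
      refine ⟨ih.2, ?_⟩
      have e1 : k + 1 + 1 + N = (k + N) + 2 := by omega
      have e2 : k + N + 1 = k + 1 + N := by omega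
      rw [e1, ss_rec, e2, ih.1, ih.2, ss_rec]
      have : V ((k + N : ℕ) : ℤ) = V k := by push_cast; exact hV k
      rw [this]; ring
  exact (key n).1

lemma mu_mul_conj {V : ℤ → ℝ} {N : ℕ} {E : ℝ} {z : ℂ} (hz : z.im ≠ 0)
    (h : aa V N E z = 0) : ss V E z N * conj (ss V E z N) = 1 := by
  have g := green_ss V V E E z (conj z) N
  have h' := aa_conj h
  simp only [aa] at h h'
  have hzz : z - conj z ≠ 0 := by
    intro h0
    apply hz
    have := congrArg Complex.im h0
    simp at this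
    linarith
  simp only [sub_self, Complex.ofReal_zero, zero_mul, sum_const_zero, add_zero] at g
  rw [conj_ss]
  apply mul_left_cancel₀ hzz
  linear_combination g - ss V E (conj z) N * h + ss V E z N * h'

lemma mu_ne_zero {V : ℤ → ℝ} {N : ℕ} {E : ℝ} {z : ℂ} (hz : z.im ≠ 0)
    (h : aa V N E z = 0) : ss V E z N ≠ 0 := by
  intro h0
  have := mu_mul_conj hz h
  rw [h0] at this
  simp at this

lemma norm_mu {V : ℤ → ℝ} {N : ℕ} {E : ℝ} {z : ℂ} (hz : z.im ≠ 0)
    (h : aa V N E z = 0) : ‖ss V E z N‖ = 1 := by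
  have := congrArg norm (mu_mul_conj hz h)
  rw [norm_mul, Complex.norm_conj, norm_one] at this
  nlinarith [norm_nonneg (ss V E z N)]

/-- Orthogonality of Bloch solutions with the same multiplier at different energies. -/
lemma orth {V : ℤ → ℝ} {N : ℕ} {E E' : ℝ} {z z' : ℂ} (hz : z.im ≠ 0)
    (h : aa V N E z = 0) (h' : aa V N E' z' = 0) (hE : E ≠ E')
    (hsq : ss V E z N ^ 2 = ss V E' z' N ^ 2) :
    (∑ n ∈ range N, ss V E z (n + 1) * conj (ss V E' z' (n + 1))) *
      (ss V E z N + ss V E' z' N) = 0 := by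
  rcases sq_eq_sq_iff_eq_or_eq_neg.1 hsq with h1 | h1
  · have g := green_ss V V E E' z (conj z') N
    have h2 := aa_conj h'
    have h3 := mu_mul_conj hz h
    simp only [aa] at h h2
    have h4 : ss V E z N * ss V E' (conj z') N = 1 := by
      rw [← conj_ss, ← h1]; exact h3
    have h5 : ∑ n ∈ range N, (((E - V n) - (E' - V n) : ℝ) : ℂ) *
        (ss V E z (n + 1) * ss V E' (conj z') (n + 1)) =
        ((E - E' : ℝ) : ℂ) * ∑ n ∈ range N, ss V E z (n + 1) * conj (ss V E' z' (n + 1)) := by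
      rw [mul_sum]
      refine sum_congr rfl fun n _ => ?_
      rw [conj_ss]; congr 2; ring
    rw [h5] at g
    have h6 : ((E - E' : ℝ) : ℂ) ≠ 0 := by
      exact_mod_cast sub_ne_zero.2 hE
    have h7 : ∑ n ∈ range N, ss V E z (n + 1) * conj (ss V E' z' (n + 1)) = 0 := by
      apply mul_left_cancel₀ h6
      linear_combination -g + ss V E' (conj z') N * h - ss V E z N * h2 + (z - conj z') * h4
    rw [h7, zero_mul]
  · rw [h1]; ring

lemma sum_self_ne_zero (V : ℤ → ℝ) {N : ℕ} (hN : 0 < N) (E : ℝ) {z : ℂ} (hz : z.im ≠ 0) :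
    ∑ n ∈ range N, ss V E z (n + 1) * conj (ss V E z (n + 1)) ≠ 0 := by
  have h1 : ∑ n ∈ range N, ss V E z (n + 1) * conj (ss V E z (n + 1)) =
      ((∑ n ∈ range N, Complex.normSq (ss V E z (n + 1)) : ℝ) : ℂ) := by
    push_cast
    exact sum_congr rfl fun n _ => Complex.mul_conj _
  rw [h1]
  have h2 : 0 < ∑ n ∈ range N, Complex.normSq (ss V E z (n + 1)) := by
    refine sum_pos' (fun n _ => Complex.normSq_nonneg _) ⟨0, mem_range.2 hN, ?_⟩
    simp only [zero_add, ss_one]
    apply Complex.normSq_pos.2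
    rintro rfl
    simp at hz
  exact_mod_cast h2.ne'

section cont

variable {T : Type*} [TopologicalSpace T]

lemma continuous_rs {V : T → ℤ → ℝ} {E : T → ℝ} (hV : ∀ n, Continuous fun t => V t n)
    (hE : Continuous E) (a b : ℝ) (n : ℕ) : Continuous fun t => rs (V t) (E t) a b n := by
  have key : ∀ n : ℕ, (Continuous fun t => rs (V t) (E t) a b n) ∧
      Continuous fun t => rs (V t) (E t) a b (n + 1) := by
    intro n
    induction n with
    | zero => exact ⟨continuous_const, continuous_const⟩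
    | succ k ih => exact ⟨ih.2, ((hE.sub (hV k)).mul ih.2).sub ih.1⟩
  exact (key n).1

lemma continuous_uu {V : T → ℤ → ℝ} {E : T → ℝ} (hV : ∀ n, Continuous fun t => V t n)
    (hE : Continuous E) (n : ℕ) : Continuous fun t => uu (V t) (E t) n :=
  continuous_rs hV hE 0 1 n

lemma continuous_vv {V : T → ℤ → ℝ} {E : T → ℝ} (hV : ∀ n, Continuous fun t => V t n)
    (hE : Continuous E) (n : ℕ) : Continuous fun t => vv (V t) (E t) n :=
  continuous_rs hV hE 1 0 n

lemma continuousAt_ss {V : T → ℤ → ℝ} {E : T → ℝ} {z : T → ℂ} {t₀ : T}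
    (hV : ∀ n, Continuous fun t => V t n)
    (hE : Continuous E) (hz : ContinuousAt z t₀) (n : ℕ) :
    ContinuousAt (fun t => ss (V t) (E t) (z t) n) t₀ := by
  unfold ss
  exact (hz.mul (Complex.continuous_ofReal.comp (continuous_uu hV hE n)).continuousAt).add
    (Complex.continuous_ofReal.comp (continuous_vv hV hE n)).continuousAt

end cont

section diff

variable {T : Type*} [NormedAddCommGroup T] [NormedSpace ℝ T]

lemma contDiff_rs {V : T → ℤ → ℝ} {E : T → ℝ} (hV : ∀ n, ContDiff ℝ 1 fun t => V t n)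
    (hE : ContDiff ℝ 1 E) (a b : ℝ) (n : ℕ) : ContDiff ℝ 1 fun t => rs (V t) (E t) a b n := by
  have key : ∀ n : ℕ, (ContDiff ℝ 1 fun t => rs (V t) (E t) a b n) ∧
      ContDiff ℝ 1 fun t => rs (V t) (E t) a b (n + 1) := by
    intro n
    induction n with
    | zero => exact ⟨contDiff_const, contDiff_const⟩
    | succ k ih => exact ⟨ih.2, ((hE.sub (hV k)).mul ih.2).sub ih.1⟩
  exact (key n).1

lemma contDiff_ss {V : T → ℤ → ℝ} {E : T → ℝ} (hV : ∀ n, ContDiff ℝ 1 fun t => V t n)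
    (hE : ContDiff ℝ 1 E) (z : ℂ) (n : ℕ) : ContDiff ℝ 1 fun t => ss (V t) (E t) z n := by
  unfold ss
  have h1 := Complex.ofRealCLM.contDiff.comp (contDiff_rs hV hE 0 1 n)
  have h2 := Complex.ofRealCLM.contDiff.comp (contDiff_rs hV hE 1 0 n)
  exact (contDiff_const.mul h1).add h2

end diff

/-- The root in the upper half plane of a real quadratic with negative discriminant. -/
noncomputable def fix (α β γ : ℝ) : ℂ :=
  ⟨-β / (2 * α), √(4 * α * γ - β ^ 2) / (2 * |α|)⟩

lemma fix_spec {α β γ : ℝ} (h : 0 < 4 * α * γ - β ^ 2) :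
    0 < (fix α β γ).im ∧ (α : ℂ) * fix α β γ ^ 2 + β * fix α β γ + γ = 0 := by
  have hα : α ≠ 0 := by
    rintro rfl
    nlinarith [sq_nonneg β]
  have hs := Real.sq_sqrt h.le
  have ha : |α| ^ 2 = α ^ 2 := sq_abs α
  have ha0 : |α| ≠ 0 := abs_ne_zero.2 hα
  refine ⟨div_pos (Real.sqrt_pos.2 h) (by positivity), ?_⟩
  apply Complex.ext
  · simp only [fix, pow_two, Complex.add_re, Complex.mul_re, Complex.ofReal_re, Complex.ofReal_im,
      Complex.mul_im, Complex.zero_re]
    have e : √(4 * α * γ - β * β) / (2 * |α|) * (√(4 * α * γ - β * β) / (2 * |α|)) =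
        (4 * α * γ - β ^ 2) / (4 * α ^ 2) := by
      rw [← ha, ← hs, ← pow_two β]; field_simp; ring
    rw [e]; field_simp; ring
  · simp only [fix, pow_two, Complex.add_im, Complex.mul_re, Complex.ofReal_re, Complex.ofReal_im,
      Complex.mul_im, Complex.zero_im]
    field_simp; ring

lemma fix_unique {α β γ : ℝ} {m : ℂ} (hm : 0 < m.im)
    (h : (α : ℂ) * m ^ 2 + β * m + γ = 0) (hne : α ≠ 0) :
    0 < 4 * α * γ - β ^ 2 ∧ fix α β γ = m := by
  have h1 := congrArg Complex.re h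
  have h2 := congrArg Complex.im h
  simp only [pow_two, Complex.add_re, Complex.mul_re, Complex.ofReal_re, Complex.ofReal_im,
      Complex.mul_im, Complex.zero_re, Complex.add_im, Complex.zero_im] at h1 h2
  have hβ : β = -2 * α * m.re := by
    apply mul_left_cancel₀ hm.ne'
    linear_combination h2
  have hd : 4 * α * γ - β ^ 2 = (2 * |α| * m.im) ^ 2 := by
    rw [mul_pow, mul_pow, sq_abs]
    rw [hβ] at h1 ⊢
    linear_combination 4 * α * h1
  have ha0 : 0 < |α| := abs_pos.2 hne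
  refine ⟨by rw [hd]; positivity, ?_⟩
  apply Complex.ext
  · simp only [fix, hβ]; field_simp
  · simp only [fix, hd]
    rw [Real.sqrt_sq (by positivity)]; field_simp

lemma continuousAt_fix {T : Type*} [TopologicalSpace T] {α β γ : T → ℝ} {t₀ : T}
    (hα : Continuous α) (hβ : Continuous β) (hγ : Continuous γ) (h : α t₀ ≠ 0) :
    ContinuousAt (fun t => fix (α t) (β t) (γ t)) t₀ := by
  have e : (fun t => fix (α t) (β t) (γ t)) = fun t =>
      ((-β t / (2 * α t) : ℝ) : ℂ) +
        ((√(4 * α t * γ t - β t ^ 2) / (2 * |α t|) : ℝ) : ℂ) * Complex.I := by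
    funext t
    apply Complex.ext <;> simp only [fix, Complex.add_re, Complex.add_im, Complex.mul_re,
      Complex.mul_im, Complex.ofReal_re, Complex.ofReal_im, Complex.I_re, Complex.I_im] <;> ring
  rw [e]
  have h1 : ContinuousAt (fun t => -β t / (2 * α t)) t₀ :=
    hβ.neg.continuousAt.div (continuous_const.mul hα).continuousAt (by simpa using h)
  have h2 : ContinuousAt (fun t => √(4 * α t * γ t - β t ^ 2) / (2 * |α t|)) t₀ := by
    refine ContinuousAt.div (Continuous.continuousAt (by fun_prop))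
      (Continuous.continuousAt (by fun_prop)) (by simpa using h)
  exact (Complex.continuous_ofReal.continuousAt.comp h1).add
    ((Complex.continuous_ofReal.continuousAt.comp h2).mul continuousAt_const)

/-- A real affine function vanishing at a non-real point vanishes. -/
lemma lin_zero {β γ : ℝ} {m : ℂ} (hm : m.im ≠ 0) (h : (β : ℂ) * m + γ = 0) : β = 0 ∧ γ = 0 := by
  have h1 := congrArg Complex.re h
  have h2 := congrArg Complex.im h
  simp at h1 h2
  rcases h2 with h2 | h2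
  · subst h2; simpa using h1
  · exact absurd h2 hm

end Pool.Agent.P.MP_c9a3a4_mp
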