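import Pool.Agent.P.MP_c9a3a4_mp.Basic

set_option autoImplicit false

namespace Pool.Agent.P.MP_c9a3a4_mp

open Finset Filter Topology ComplexConjugate

variable {Y : Type}

/-- Initial datum of the Bloch solution with the given sign. -/
noncomputable def zz (m : Y → ℂ) (x : Y × Bool) : ℂ := bif x.2 then m x.1 else conj (m x.1)

/-- The Bloch solution attached to an energy label and a sign. -/
noncomputable def bl (en : Y → ℝ) (V : ℤ → ℝ) (m : Y → ℂ) (x : Y × Bool) (n : ℕ) : ℂ :=
  ss V (en x.1) (zz m x) n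

/-- Squared Bloch solutions sharing one multiplier are fewer than `N` and independent. -/
def Inv (en : Y → ℝ) (V : ℤ → ℝ) (N : ℕ) (m : Y → ℂ) : Prop :=
  ∀ (ι : Type) [Fintype ι] (x : ι → Y × Bool), Function.Injective x →
    (∀ i j, bl en V m (x i) N ^ 2 = bl en V m (x j) N ^ 2) →
    Fintype.card ι < N ∧
      ∀ a : ι → ℂ, (∀ n < N, ∑ i, a i * bl en V m (x i) (n + 1) ^ 2 = 0) → a = 0

/-- The Bloch data. -/
structure Data (en : Y → ℝ) (V : ℤ → ℝ) (N : ℕ) (m : Y → ℂ) : Prop where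
  pos : 0 < N
  per : ∀ n : ℤ, V (n + N) = V n
  im_pos : ∀ y, 0 < (m y).im
  bloch : ∀ y, aa V N (en y) (m y) = 0

lemma zz_im_ne {m : Y → ℂ} (h : ∀ y, 0 < (m y).im) (x : Y × Bool) : (zz m x).im ≠ 0 := by
  rcases x with ⟨y, b⟩
  cases b
  · simpa [zz] using (h y).ne'
  · simpa [zz] using (h y).ne'

lemma Data.aa_zz {en : Y → ℝ} {V : ℤ → ℝ} {N : ℕ} {m : Y → ℂ} (h : Data en V N m)
    (x : Y × Bool) : aa V N (en x.1) (zz m x) = 0 := by
  rcases x with ⟨y, b⟩
  cases b
  · simpa [zz] using aa_conj (h.bloch y)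
  · simpa [zz] using h.bloch y

lemma Data.shift {en : Y → ℝ} {V : ℤ → ℝ} {N : ℕ} {m : Y → ℂ} (h : Data en V N m)
    (x : Y × Bool) (n : ℕ) : bl en V m x (n + N) = bl en V m x N * bl en V m x n :=
  ss_shift h.per (h.aa_zz x) n

lemma Data.mu_ne {en : Y → ℝ} {V : ℤ → ℝ} {N : ℕ} {m : Y → ℂ} (h : Data en V N m)
    (x : Y × Bool) : bl en V m x N ≠ 0 :=
  mu_ne_zero (zz_im_ne h.im_pos x) (h.aa_zz x)

lemma bl_not (en : Y → ℝ) (V : ℤ → ℝ) (m : Y → ℂ) (y : Y) (b : Bool) (n : ℕ) :
    bl en V m (y, !b) n = conj (bl en V m (y, b) n) := by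
  cases b <;> simp [bl, zz, conj_ss]

lemma Data.double {en : Y → ℝ} {V : ℤ → ℝ} {N : ℕ} {m : Y → ℂ} (h : Data en V N m) :
    Data en V (N + N) m where
  pos := by have := h.pos; omega
  per := by
    intro n
    have : n + ((N + N : ℕ) : ℤ) = (n + N) + N := by push_cast; ring
    rw [this, h.per, h.per]
  im_pos := h.im_pos
  bloch := by
    intro y
    have h1 := h.bloch y
    have e : N + N + 1 = (N + 1) + N := by omega
    simp only [aa] at h1 ⊢
    rw [e, ss_shift h.per (h.bloch y), ss_shift h.per (h.bloch y)]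
    linear_combination ss V (en y) (m y) N * h1

lemma Inv.double {en : Y → ℝ} {V : ℤ → ℝ} {N : ℕ} {m : Y → ℂ} (h : Data en V N m)
    (hI : Inv en V N m) : Inv en V (N + N) m := by
  classical
  intro ι _ x hx hsq
  rcases isEmpty_or_nonempty ι with hι | ⟨⟨i₀⟩⟩
  · refine ⟨?_, fun a _ => funext fun i => hι.elim i⟩
    have := h.pos
    simp only [Fintype.card_eq_zero]
    omega
  set ν := bl en V m (x i₀) N ^ 2 with hν
  have hν0 : ν ≠ 0 := pow_ne_zero _ (h.mu_ne _)
  let P : ι → Prop := fun i => bl en V m (x i) N ^ 2 = ν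
  have hnP : ∀ i, ¬ P i → bl en V m (x i) N ^ 2 = -ν := by
    intro i hi
    have h1 := hsq i i₀
    rw [h.shift, h.shift] at h1
    have h2 : (bl en V m (x i) N ^ 2) ^ 2 = ν ^ 2 := by rw [hν]; linear_combination h1
    rcases sq_eq_sq_iff_eq_or_eq_neg.1 h2 with h3 | h3
    · exact absurd h3 hi
    · exact h3
  obtain ⟨c1, i1⟩ := hI {i // P i} (fun i => x i.1) (hx.comp Subtype.val_injective)
    (fun i j => by rw [i.2, j.2])
  obtain ⟨c2, i2⟩ := hI {i // ¬ P i} (fun i => x i.1) (hx.comp Subtype.val_injective)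
    (fun i j => by rw [hnP _ i.2, hnP _ j.2])
  refine ⟨?_, fun a ha => ?_⟩
  · rw [Fintype.card_subtype_compl] at c2
    have := Fintype.card_subtype_le P
    omega
  · have key : ∀ n < N, (∑ i : {i // P i}, a i.1 * bl en V m (x i.1) (n + 1) ^ 2 = 0) ∧
        ∑ i : {i // ¬ P i}, a i.1 * bl en V m (x i.1) (n + 1) ^ 2 = 0 := by
      intro n hn
      have e1 := ha n (by omega)
      have e2 := ha (n + N) (by omega)
      rw [← Fintype.sum_subtype_add_sum_subtype P] at e1 e2
      have e : n + N + 1 = (n + 1) + N := by omega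
      have s1 : ∑ i : {i // P i}, a i.1 * bl en V m (x i.1) (n + N + 1) ^ 2 =
          ν * ∑ i : {i // P i}, a i.1 * bl en V m (x i.1) (n + 1) ^ 2 := by
        rw [mul_sum]
        refine sum_congr rfl fun i _ => ?_
        have hi : bl en V m (x i.1) N ^ 2 = ν := i.2
        rw [e, h.shift, mul_pow, hi]; ring
      have s2 : ∑ i : {i // ¬ P i}, a i.1 * bl en V m (x i.1) (n + N + 1) ^ 2 =
          -ν * ∑ i : {i // ¬ P i}, a i.1 * bl en V m (x i.1) (n + 1) ^ 2 := by
        rw [mul_sum]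
        refine sum_congr rfl fun i _ => ?_
        rw [e, h.shift, mul_pow, hnP _ i.2]; ring
      rw [s1, s2] at e2
      constructor
      · apply mul_left_cancel₀ (mul_ne_zero two_ne_zero hν0)
        linear_combination ν * e1 + e2
      · apply mul_left_cancel₀ (mul_ne_zero two_ne_zero hν0)
        linear_combination ν * e1 - e2
    have z1 := i1 (fun i => a i.1) (fun n hn => (key n hn).1)
    have z2 := i2 (fun i => a i.1) (fun n hn => (key n hn).2)
    funext i
    by_cases hi : P i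
    · exact congrFun z1 ⟨i, hi⟩
    · exact congrFun z2 ⟨i, hi⟩

/-- The closed condition used in the compactness argument. -/
def Bad (en : Y → ℝ) (V : ℤ → ℝ) (N : ℕ) (m : Y → ℂ) (r : ℕ) (x : Fin r → Y × Bool)
    (a : Fin r → ℂ) : Prop :=
  (∀ i j, bl en V m (x i) N ^ 2 = bl en V m (x j) N ^ 2) ∧
  (∀ i j, i ≠ j → (x i).2 = (x j).2 →
    (∑ n ∈ range N, bl en V m (x i) (n + 1) * conj (bl en V m (x j) (n + 1))) *
      (bl en V m (x i) N + bl en V m (x j) N) = 0) ∧
  (r = N ∨ ∀ n < N, ∑ i, a i * bl en V m (x i) (n + 1) ^ 2 = 0)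

lemma not_bad_of_inv {en : Y → ℝ} {V : ℤ → ℝ} {N : ℕ} {m : Y → ℂ} (h : Data en V N m)
    (hI : Inv en V N m) (r : ℕ) (x : Fin r → Y × Bool) (a : Fin r → ℂ) (ha : ‖a‖ = 1) :
    ¬ Bad en V N m r x a := by
  rintro ⟨h1, h2, h3⟩
  have hx : Function.Injective x := by
    intro i j hij
    by_contra hne
    have := h2 i j hne (by rw [hij])
    rw [hij] at this
    rcases mul_eq_zero.1 this with h4 | h4
    · exact sum_self_ne_zero V h.pos _ (zz_im_ne h.im_pos _) h4
    · exact h.mu_ne (x j) (by linear_combination h4 / 2)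
  obtain ⟨c, ind⟩ := hI (Fin r) x hx h1
  rw [Fintype.card_fin] at c
  rcases h3 with h3 | h3
  · omega
  · rw [ind a h3] at ha
    simp at ha

lemma inv_of_not_bad {en : Y → ℝ} (hen : Function.Injective en) {V : ℤ → ℝ} {N : ℕ}
    {m : Y → ℂ} (h : Data en V N m)
    (hB : ∀ r ≤ N, ∀ (x : Fin r → Y × Bool) (a : Fin r → ℂ), ‖a‖ = 1 → ¬ Bad en V N m r x a) :
    Inv en V N m := by
  classical
  intro ι _ x hx hsq
  have sep : ∀ i j, i ≠ j → (x i).2 = (x j).2 →
      (∑ n ∈ range N, bl en V m (x i) (n + 1) * conj (bl en V m (x j) (n + 1))) *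
        (bl en V m (x i) N + bl en V m (x j) N) = 0 := by
    intro i j hij hs
    refine orth (zz_im_ne h.im_pos _) (h.aa_zz _) (h.aa_zz _) ?_ (hsq i j)
    intro he
    exact hij (hx (Prod.ext (hen he) hs))
  have hc : Fintype.card ι < N := by
    by_contra hc
    have hc' : Fintype.card (Fin N) ≤ Fintype.card ι := by simpa using hc
    obtain ⟨e⟩ := Function.Embedding.nonempty_of_card_le hc'
    have : Nonempty (Fin N) := ⟨⟨0, h.pos⟩⟩
    refine hB N le_rfl (fun k => x (e k)) (fun _ => 1) (by simp) ⟨fun i j => hsq _ _,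
      fun i j hij hs => sep _ _ (fun h => hij (e.injective h)) hs, Or.inl rfl⟩
  refine ⟨hc, fun a ha => ?_⟩
  by_contra ha0
  let e := (Fintype.equivFin ι).symm
  have hb0 : (fun k => a (e k)) ≠ 0 := by
    intro h0
    apply ha0
    funext i
    have := congrFun h0 (e.symm i)
    simpa using this
  have hn0 : ‖(fun k => a (e k))‖ ≠ 0 := norm_ne_zero_iff.2 hb0
  refine hB _ hc.le (fun k => x (e k)) ((‖(fun k => a (e k))‖⁻¹ : ℂ) • fun k => a (e k)) ?_
    ⟨fun i j => hsq _ _, fun i j hij hs => sep _ _ (fun h => hij (e.injective h)) hs,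
      Or.inr fun n hn => ?_⟩
  · rw [norm_smul]; simp [hn0]
  · have := ha n hn
    rw [← e.sum_comp] at this
    simp only [Pi.smul_apply, smul_eq_mul, mul_assoc]
    rw [← mul_sum, this, mul_zero]

lemma continuousAt_zz {T : Type*} [TopologicalSpace T] [TopologicalSpace Y] {M : T → Y → ℂ}
    {x : T → Y × Bool} {t₀ : T} (hx : ContinuousAt x t₀)
    (hM : ContinuousAt (fun t => M t (x t).1) t₀) :
    ContinuousAt (fun t => zz (M t) (x t)) t₀ := by
  have h2 : ∀ᶠ t in 𝓝 t₀, (x t).2 = (x t₀).2 := by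
    have : ContinuousAt (fun t => (x t).2) t₀ := continuous_snd.continuousAt.comp hx
    exact this.eventually (p := fun b => b = (x t₀).2)
      ((isOpen_discrete {b | b = (x t₀).2}).mem_nhds rfl)
  cases hb : (x t₀).2
  · refine (Complex.continuous_conj.continuousAt.comp hM).congr ?_
    filter_upwards [h2] with t ht
    simp [zz, ht, hb]
  · refine hM.congr ?_
    filter_upwards [h2] with t ht
    simp [zz, ht, hb]

/-- Openness of the invariant. -/
lemma eventually_not_bad [TopologicalSpace Y] [CompactSpace Y] {en : Y → ℝ} (hen : Continuous en)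
    {T : Type*} [TopologicalSpace T] {t₀ : T} {V : T → ℤ → ℝ} {M : T → Y → ℂ} {N : ℕ}
    (hV : ∀ n, Continuous fun t => V t n)
    (hM : ∀ y, ContinuousAt (fun p : T × Y => M p.1 p.2) (t₀, y))
    (h : Data en (V t₀) N (M t₀)) (hI : Inv en (V t₀) N (M t₀)) :
    ∀ᶠ t in 𝓝 t₀, ∀ r ≤ N, ∀ (x : Fin r → Y × Bool) (a : Fin r → ℂ), ‖a‖ = 1 →
      ¬ Bad en (V t) N (M t) r x a := by
  have main : ∀ r : ℕ, ∀ᶠ t in 𝓝 t₀, ∀ (x : Fin r → Y × Bool) (a : Fin r → ℂ), ‖a‖ = 1 →
      ¬ Bad en (V t) N (M t) r x a := by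
    intro r
    have hK : IsCompact ((Set.univ : Set (Fin r → Y × Bool)) ×ˢ
        Metric.sphere (0 : Fin r → ℂ) 1) := isCompact_univ.prod (isCompact_sphere _ _)
    have := hK.eventually_forall_of_forall_eventually (x₀ := t₀)
      (P := fun t k => ¬ Bad en (V t) N (M t) r k.1 k.2) ?_
    · filter_upwards [this] with t ht x a ha
      exact ht (x, a) ⟨trivial, by simpa using ha⟩
    rintro ⟨x₀, a₀⟩ ⟨-, ha₀⟩
    have ha₀' : ‖a₀‖ = 1 := by simpa using ha₀
    have hnb := not_bad_of_inv h hI r x₀ a₀ ha₀'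
    have cx : ∀ i, Continuous fun p : T × ((Fin r → Y × Bool) × (Fin r → ℂ)) => p.2.1 i := by
      intro i; fun_prop
    have cb : ∀ i n, ContinuousAt (fun p : T × ((Fin r → Y × Bool) × (Fin r → ℂ)) =>
        bl en (V p.1) (M p.1) (p.2.1 i) n) (t₀, x₀, a₀) := by
      intro i n
      unfold bl
      refine continuousAt_ss (fun k => (hV k).comp continuous_fst)
        (hen.comp (continuous_fst.comp (cx i))) ?_ n
      refine continuousAt_zz (M := fun p : T × ((Fin r → Y × Bool) × (Fin r → ℂ)) => M p.1)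
        (cx i).continuousAt ?_
      have hc : ContinuousAt (fun p : T × ((Fin r → Y × Bool) × (Fin r → ℂ)) =>
          (p.1, (p.2.1 i).1)) (t₀, x₀, a₀) :=
        (continuous_fst.prodMk (continuous_fst.comp (cx i))).continuousAt
      exact ContinuousAt.comp (f := fun p : T × ((Fin r → Y × Bool) × (Fin r → ℂ)) =>
          (p.1, (p.2.1 i).1)) (hM (x₀ i).1) hc
    unfold Bad at hnb
    rw [not_and_or, not_and_or] at hnb
    rcases hnb with hnb | hnb | hnb
    · push Not at hnb
      obtain ⟨i, j, hij⟩ := hnb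
      have := (((cb i N).pow 2).sub ((cb j N).pow 2)).eventually_ne (y := 0) (sub_ne_zero.2 hij)
      filter_upwards [this] with p hp hbad
      exact hp (sub_eq_zero.2 (hbad.1 i j))
    · push Not at hnb
      obtain ⟨i, j, hij, hs, hne⟩ := hnb
      have c1 : ContinuousAt (fun p : T × ((Fin r → Y × Bool) × (Fin r → ℂ)) =>
          (∑ n ∈ range N, bl en (V p.1) (M p.1) (p.2.1 i) (n + 1) *
            conj (bl en (V p.1) (M p.1) (p.2.1 j) (n + 1))) *
          (bl en (V p.1) (M p.1) (p.2.1 i) N + bl en (V p.1) (M p.1) (p.2.1 j) N))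
          (t₀, x₀, a₀) := by
        refine ContinuousAt.mul ?_ ((cb i N).add (cb j N))
        exact tendsto_finsetSum _ fun n _ =>
          (cb i (n + 1)).mul (Complex.continuous_conj.continuousAt.comp (cb j (n + 1)))
      have c2 : ∀ᶠ p : T × ((Fin r → Y × Bool) × (Fin r → ℂ)) in 𝓝 (t₀, x₀, a₀),
          (p.2.1 i).2 = (p.2.1 j).2 := by
        have : Continuous fun p : T × ((Fin r → Y × Bool) × (Fin r → ℂ)) =>
            ((p.2.1 i).2, (p.2.1 j).2) := by fun_prop
        exact this.continuousAt.eventually (p := fun q : Bool × Bool => q.1 = q.2)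
          ((isOpen_discrete {q : Bool × Bool | q.1 = q.2}).mem_nhds hs)
      filter_upwards [c1.eventually_ne hne, c2] with p hp hp2 hbad
      exact hp (hbad.2.1 i j hij hp2)
    · push Not at hnb
      obtain ⟨hr, n, hn, hne⟩ := hnb
      have c1 : ContinuousAt (fun p : T × ((Fin r → Y × Bool) × (Fin r → ℂ)) =>
          ∑ i, p.2.2 i * bl en (V p.1) (M p.1) (p.2.1 i) (n + 1) ^ 2) (t₀, x₀, a₀) := by
        refine tendsto_finsetSum _ fun i _ => ContinuousAt.mul ?_ ((cb i (n + 1)).pow 2)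
        exact Continuous.continuousAt (by fun_prop)
      filter_upwards [c1.eventually_ne hne] with p hp hbad
      rcases hbad.2.2 with h5 | h5
      · exact hr h5
      · exact hp (h5 n hn)
  have := (eventually_all_finset (range (N + 1))).2 fun r _ => main r
  filter_upwards [this] with t ht r hr
  exact ht r (mem_range.2 (by omega))

end Pool.Agent.P.MP_c9a3a4_mp
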