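import Pool.Agent.P.MP_c9a3a4_mp.Inv

set_option autoImplicit false

namespace Pool.Agent.P.MP_c9a3a4_mp

open Finset Filter Topology ComplexConjugate

variable {Y : Type}

/-- The monodromy matrix is scalar. -/
def Closed (V : ℤ → ℝ) (N : ℕ) (E : ℝ) : Prop :=
  uu V E N = 0 ∧ vv V E (N + 1) = 0 ∧ uu V E (N + 1) = vv V E N

lemma Closed.sq {V : ℤ → ℝ} {N : ℕ} {E : ℝ} (h : Closed V N E) : vv V E N * vv V E N = 1 := by
  have := wronski V E N
  rw [h.1, h.2.2] at this
  linarith

lemma Closed.ss_N {V : ℤ → ℝ} {N : ℕ} {E : ℝ} (h : Closed V N E) (z : ℂ) :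
    ss V E z N = vv V E N := by simp [ss, h.1]

lemma Closed.ss_N1 {V : ℤ → ℝ} {N : ℕ} {E : ℝ} (h : Closed V N E) (z : ℂ) :
    ss V E z (N + 1) = vv V E N * z := by simp [ss, h.2.1, h.2.2, mul_comm]

lemma Closed.aa_zero {V : ℤ → ℝ} {N : ℕ} {E : ℝ} (h : Closed V N E) (z : ℂ) :
    aa V N E z = 0 := by simp [aa, h.ss_N, h.ss_N1, mul_comm]

lemma closed_of_u {V : ℤ → ℝ} {N : ℕ} {E : ℝ} {z : ℂ} (hz : z.im ≠ 0) (h : aa V N E z = 0)
    (hu : uu V E N = 0) : Closed V N E := by
  rw [aa_eq, hu] at h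
  have := lin_zero (β := uu V E (N + 1) - vv V E N) (γ := vv V E (N + 1)) hz (by simpa using h)
  exact ⟨hu, this.2, by linarith [this.1]⟩

lemma closed_of_sq {V : ℤ → ℝ} {N : ℕ} {E : ℝ} {z : ℂ} (hz : z.im ≠ 0) (h : aa V N E z = 0)
    (hsq : ss V E z N ^ 2 = 1) : Closed V N E := by
  refine closed_of_u hz h ?_
  rcases sq_eq_one_iff.1 hsq with h1 | h1
  · refine (lin_zero (β := uu V E N) (γ := vv V E N - 1) hz ?_).1
    simp only [ss] at h1; push_cast; linear_combination h1
  · refine (lin_zero (β := uu V E N) (γ := vv V E N + 1) hz ?_).1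
    simp only [ss] at h1; push_cast; linear_combination h1

lemma Closed.mu_sq {V : ℤ → ℝ} {N : ℕ} {E : ℝ} (h : Closed V N E) (z : ℂ) :
    ss V E z N ^ 2 = 1 := by
  rw [h.ss_N, pow_two]; exact_mod_cast h.sq

/-- Green sum of two solutions with the same data. -/
noncomputable def cc (V : ℤ → ℝ) (N : ℕ) (E E' : ℝ) (z : ℂ) : ℂ :=
  ∑ n ∈ range N, ss V E z (n + 1) * ss V E' z (n + 1)

/-- Leading coefficient of `cc`. -/
def c1 (V : ℤ → ℝ) (N : ℕ) (E E' : ℝ) : ℝ := ∑ n ∈ range N, uu V E (n + 1) * uu V E' (n + 1)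
/-- Middle coefficient of `cc`. -/
def c2 (V : ℤ → ℝ) (N : ℕ) (E E' : ℝ) : ℝ :=
  ∑ n ∈ range N, (uu V E (n + 1) * vv V E' (n + 1) + vv V E (n + 1) * uu V E' (n + 1))
/-- Constant coefficient of `cc`. -/
def c3 (V : ℤ → ℝ) (N : ℕ) (E E' : ℝ) : ℝ := ∑ n ∈ range N, vv V E (n + 1) * vv V E' (n + 1)

lemma cc_expand (V : ℤ → ℝ) (N : ℕ) (E E' : ℝ) (z : ℂ) :
    cc V N E E' z = c1 V N E E' * z ^ 2 + c2 V N E E' * z + c3 V N E E' := by
  simp only [cc, c1, c2, c3, ss]
  push_cast
  rw [sum_mul, sum_mul, ← sum_add_distrib, ← sum_add_distrib]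
  exact sum_congr rfl fun n _ => by ring

lemma cc_eq {V : ℤ → ℝ} {N : ℕ} {E' : ℝ} (h : Closed V N E') (E : ℝ) (z : ℂ) :
    ((E - E' : ℝ) : ℂ) * cc V N E E' z = vv V E' N * aa V N E z := by
  have g := green_ss V V E E' z z N
  rw [h.ss_N, h.ss_N1] at g
  have e : ∑ n ∈ range N, (((E - V n) - (E' - V n) : ℝ) : ℂ) *
        (ss V E z (n + 1) * ss V E' z (n + 1)) = ((E - E' : ℝ) : ℂ) * cc V N E E' z := by
    rw [cc, mul_sum]
    refine sum_congr rfl fun n _ => ?_
    congr 2; ring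
  rw [e] at g
  simp only [aa]
  linear_combination -g

lemma c1_eq {V : ℤ → ℝ} {N : ℕ} {E' : ℝ} (h : Closed V N E') (E : ℝ) :
    (E - E') * c1 V N E E' = -(vv V E' N * uu V E N) := by
  have g := green_uu V V E E' N
  rw [h.1, h.2.2] at g
  have e : ∑ n ∈ range N, ((E - V n) - (E' - V n)) *
        (uu V E (n + 1) * uu V E' (n + 1)) = (E - E') * c1 V N E E' := by
    rw [c1, mul_sum]
    refine sum_congr rfl fun n _ => ?_
    ring
  rw [e] at g
  linear_combination -g

lemma c1_pos (V : ℤ → ℝ) {N : ℕ} (hN : 0 < N) (E : ℝ) : 0 < c1 V N E E := by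
  refine sum_pos' (fun n _ => mul_self_nonneg _) ⟨0, mem_range.2 hN, ?_⟩
  simp

lemma cc_root_zero [TopologicalSpace Y] (hY : ∀ y : Y, (𝓝[≠] y).NeBot) {en : Y → ℝ}
    (hen : Continuous en) (hinj : Function.Injective en) {V : ℤ → ℝ} {N : ℕ} {m : Y → ℂ}
    (h : Data en V N m) (hm : Continuous m) {j : Y} (hj : Closed V N (en j)) (y : Y) :
    cc V N (en y) (en j) (m y) = 0 := by
  have h1 : ∀ y, y ≠ j → cc V N (en y) (en j) (m y) = 0 := by
    intro y hy
    have := cc_eq hj (en y) (m y)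
    rw [h.bloch, mul_zero] at this
    rcases mul_eq_zero.1 this with h2 | h2
    · exact absurd (hinj (sub_eq_zero.1 (by exact_mod_cast h2))) hy
    · exact h2
  by_cases hy : y = j
  · subst hy
    have hc : ContinuousAt (fun y' => cc V N (en y') (en y) (m y')) y := by
      unfold cc
      refine tendsto_finsetSum _ fun n _ => ContinuousAt.mul ?_ ?_
      · exact continuousAt_ss (V := fun _ => V) (fun _ => continuous_const) hen hm.continuousAt _
      · exact continuousAt_ss (V := fun _ => V) (E := fun _ => en y) (fun _ => continuous_const)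
          continuous_const hm.continuousAt _
    have := hY y
    have t1 : Tendsto (fun y' => cc V N (en y') (en y) (m y')) (𝓝[≠] y)
        (𝓝 (cc V N (en y) (en y) (m y))) := hc.tendsto.mono_left nhdsWithin_le_nhds
    have t2 : Tendsto (fun y' => cc V N (en y') (en y) (m y')) (𝓝[≠] y) (𝓝 0) := by
      refine tendsto_const_nhds.congr' ?_
      filter_upwards [self_mem_nhdsWithin] with y' hy'
      exact (h1 y' hy').symm
    exact tendsto_nhds_unique t1 t2
  · exact h1 y hy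

lemma Inv.finite {en : Y → ℝ} {V : ℤ → ℝ} {N : ℕ} {m : Y → ℂ} (hI : Inv en V N m) (l : ℂ) :
    Finite {x : Y × Bool // bl en V m x N ^ 2 = l} := by
  by_contra hinf
  have : Infinite {x : Y × Bool // bl en V m x N ^ 2 = l} := not_finite_iff_infinite.1 hinf
  let e := Infinite.natEmbedding {x : Y × Bool // bl en V m x N ^ 2 = l}
  have := (hI (Fin N) (fun k => (e k.1).1)
    (Subtype.val_injective.comp (e.injective.comp Fin.val_injective))
    (fun i j => by rw [(e i.1).2, (e j.1).2])).1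
  simp at this

/-- A real direction orthogonal to all squared Bloch solutions with squared multiplier `-1`. -/
lemma exists_dir {en : Y → ℝ} {V : ℤ → ℝ} {N : ℕ} {m : Y → ℂ} (hI : Inv en V N m) :
    ∃ g : Fin N → ℝ, g ≠ 0 ∧ ∀ x : Y × Bool, bl en V m x N ^ 2 = -1 →
      ∑ n : Fin N, (g n : ℂ) * bl en V m x (n + 1) ^ 2 = 0 := by
  classical
  have := hI.finite (-1)
  let F := {x : Y × Bool // bl en V m x N ^ 2 = -1}
  have : Fintype F := Fintype.ofFinite F
  have hc := (hI F (fun x => x.1) Subtype.val_injective (fun i j => by rw [i.2, j.2])).1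
  let A : Matrix F (Fin N) ℂ := fun x n => bl en V m x.1 (n + 1) ^ 2
  have hk : LinearMap.ker A.mulVecLin ≠ ⊥ := by
    apply LinearMap.ker_ne_bot_of_finrank_lt
    simpa using hc
  obtain ⟨w, hw, hw0⟩ := (Submodule.ne_bot_iff _).1 hk
  have hw1 : ∀ x : Y × Bool, bl en V m x N ^ 2 = -1 →
      ∑ n : Fin N, w n * bl en V m x (n + 1) ^ 2 = 0 := by
    intro x hx
    have : ∑ n : Fin N, bl en V m x (n + 1) ^ 2 * w n = 0 :=
      congrFun (LinearMap.mem_ker.1 hw) ⟨x, hx⟩
    rw [← this]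
    exact sum_congr rfl fun n _ => mul_comm _ _
  have hw2 : ∀ x : Y × Bool, bl en V m x N ^ 2 = -1 →
      ∑ n : Fin N, conj (w n) * bl en V m x (n + 1) ^ 2 = 0 := by
    rintro ⟨y, b⟩ hx
    have h1 := hw1 (y, !b) (by rw [bl_not, ← map_pow, hx]; simp)
    have h2 := congrArg conj h1
    simpa [bl_not] using h2
  by_cases hre : (fun n => (w n).re) = 0
  · refine ⟨fun n => (w n).im, ?_, fun x hx => ?_⟩
    · intro him
      apply hw0
      funext n
      exact Complex.ext (congrFun hre n) (congrFun him n)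
    · have e : ∀ n, ((w n).im : ℂ) = (w n - conj (w n)) / (2 * Complex.I) := fun n =>
        Complex.im_eq_sub_conj _
      simp only [e]
      have : ∑ n : Fin N, (w n - conj (w n)) / (2 * Complex.I) * bl en V m x (n + 1) ^ 2 =
          (∑ n : Fin N, w n * bl en V m x (n + 1) ^ 2 -
            ∑ n : Fin N, conj (w n) * bl en V m x (n + 1) ^ 2) / (2 * Complex.I) := by
        rw [← sum_sub_distrib, sum_div]
        exact sum_congr rfl fun n _ => by ring
      rw [this, hw1 x hx, hw2 x hx]; simp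
  · refine ⟨fun n => (w n).re, hre, fun x hx => ?_⟩
    have e : ∀ n, ((w n).re : ℂ) = (w n + conj (w n)) / 2 := fun n => Complex.re_eq_add_conj _
    simp only [e]
    have : ∑ n : Fin N, (w n + conj (w n)) / 2 * bl en V m x (n + 1) ^ 2 =
        (∑ n : Fin N, w n * bl en V m x (n + 1) ^ 2 +
          ∑ n : Fin N, conj (w n) * bl en V m x (n + 1) ^ 2) / 2 := by
      rw [← sum_add_distrib, sum_div]
      exact sum_congr rfl fun n _ => by ring
    rw [this, hw1 x hx, hw2 x hx]; simp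

/-- Real interpolation against the squared Bloch solutions at the closed gaps. -/
lemma exists_interp {en : Y → ℝ} {V : ℤ → ℝ} {N : ℕ} {m : Y → ℂ} (hI : Inv en V N m)
    {R : Type} [Fintype R] (e : R → Y) (he : Function.Injective e)
    (hR : ∀ j, bl en V m (e j, true) N ^ 2 = 1) (c : R → ℂ) :
    ∃ w : Fin N → ℝ, ∀ j, ∑ n : Fin N, (w n : ℂ) * bl en V m (e j, true) (n + 1) ^ 2 = c j := by
  classical
  have h1 : ∀ x : R × Bool, bl en V m (e x.1, x.2) N ^ 2 = 1 := by
    rintro ⟨j, b⟩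
    cases b
    · have := bl_not en V m (e j) true N
      simp only [Bool.not_true] at this
      rw [this, ← map_pow, hR]; simp
    · exact hR j
  have ind := (hI (R × Bool) (fun x => (e x.1, x.2)) (by
    rintro ⟨a, b⟩ ⟨a', b'⟩ h
    simp only [Prod.mk.injEq] at h
    exact Prod.ext (he h.1) h.2) (fun i j => by rw [h1, h1])).2
  let A : Matrix (R × Bool) (Fin N) ℂ := fun x n => bl en V m (e x.1, x.2) (n + 1) ^ 2
  have hA : LinearIndependent ℂ A.row := by
    rw [Fintype.linearIndependent_iff]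
    intro a ha i
    have := ind a (fun n hn => by
      have := congrFun ha ⟨n, hn⟩
      simpa [A, Matrix.row] using this)
    exact congrFun this i
  have hr : LinearMap.range A.mulVecLin = ⊤ := by
    apply Submodule.eq_top_of_finrank_eq
    have := hA.rank_matrix
    rw [Matrix.rank] at this
    rw [this]; simp
  obtain ⟨w, hw⟩ := LinearMap.range_eq_top.1 hr
    (fun x => bif x.2 then c x.1 else conj (c x.1))
  refine ⟨fun n => (w n).re, fun j => ?_⟩
  have e1 : ∑ n : Fin N, bl en V m (e j, true) (n + 1) ^ 2 * w n = c j := congrFun hw (j, true)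
  have e3 : ∑ n : Fin N, bl en V m (e j, false) (n + 1) ^ 2 * w n = conj (c j) :=
    congrFun hw (j, false)
  have e2 := congrArg conj e3
  have hb : ∀ n, bl en V m (e j, false) n = conj (bl en V m (e j, true) n) := fun n =>
    bl_not en V m (e j) true n
  simp only [map_sum, map_mul, map_pow, hb, Complex.conj_conj] at e2
  have e4 : ∀ n, ((w n).re : ℂ) = (w n + conj (w n)) / 2 := fun n => Complex.re_eq_add_conj _
  simp only [e4]
  have : ∑ n : Fin N, (w n + conj (w n)) / 2 * bl en V m (e j, true) (n + 1) ^ 2 =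
      (∑ n : Fin N, bl en V m (e j, true) (n + 1) ^ 2 * w n +
        ∑ n : Fin N, bl en V m (e j, true) (n + 1) ^ 2 * conj (w n)) / 2 := by
    rw [← sum_add_distrib, sum_div]
    exact sum_congr rfl fun n _ => by ring
  rw [this, e1, e2]; ring

/-- The form of the open mapping theorem that is used. -/
lemma ift {T F : Type*} [NormedAddCommGroup T] [NormedSpace ℝ T] [CompleteSpace T]
    [NormedAddCommGroup F] [NormedSpace ℝ F] [CompleteSpace F]
    {Φ : T → F} {L : T →L[ℝ] F} (l : T →L[ℝ] ℝ) (hΦ : HasStrictFDerivAt Φ L 0) (h0 : Φ 0 = 0)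
    (hL : Function.Surjective L) {w₀ : T} (hw : L w₀ = 0) (hl : l w₀ ≠ 0) :
    ∃ᶠ t in 𝓝 (0 : T), Φ t = 0 ∧ l t ≠ 0 := by
  have h1 : HasStrictFDerivAt (fun t => (Φ t, l t)) (L.prod l) 0 :=
    hΦ.prodMk l.hasStrictFDerivAt
  have h2 : LinearMap.range (L.prod l : T →ₗ[ℝ] F × ℝ) = ⊤ := by
    rw [LinearMap.range_eq_top]
    rintro ⟨y, s⟩
    obtain ⟨t, ht⟩ := hL y
    refine ⟨t + ((s - l t) / l w₀) • w₀, ?_⟩
    ext
    · simp [ht, hw]
    · simp [hl]
  have h3 := h1.map_nhds_eq_of_surj h2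
  simp only [h0, map_zero] at h3
  have h4 : ∃ᶠ q : F × ℝ in 𝓝 (0, 0), q.1 = 0 ∧ q.2 ≠ 0 := by
    have t : Tendsto (fun s : ℝ => ((0 : F), s)) (𝓝[≠] 0) (𝓝 (0, 0)) :=
      ((continuous_const.prodMk continuous_id).tendsto 0).mono_left nhdsWithin_le_nhds
    refine t.frequently (Eventually.frequently ?_)
    filter_upwards [self_mem_nhdsWithin] with s hs
    exact ⟨rfl, hs⟩
  rw [← h3] at h4
  exact frequently_map.1 h4

lemma hasStrict_sum {T F : Type*} [NormedAddCommGroup T] [NormedSpace ℝ T]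
    [NormedAddCommGroup F] [NormedSpace ℝ F] {ι : Type*} (s : Finset ι)
    (l : ι → T →L[ℝ] ℝ) (g : ι → T → F) (hg : ∀ i, ContDiff ℝ 1 (g i)) :
    HasStrictFDerivAt (fun t => ∑ i ∈ s, l i t • g i t)
      (∑ i ∈ s, (l i).smulRight (g i 0)) 0 := by
  refine HasStrictFDerivAt.fun_sum fun i _ => ?_
  have h1 := (hg i).contDiffAt.hasStrictFDerivAt (x := 0) one_ne_zero
  have h2 := ((l i).hasStrictFDerivAt (x := 0)).fun_smul h1
  simpa using h2

end Pool.Agent.P.MP_c9a3a4_mp
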