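import Pool.Agent.P.MP_c9a3a4_mp.Lin

set_option autoImplicit false

namespace Pool.Agent.P.MP_c9a3a4_mp

open Finset Filter Topology ComplexConjugate

variable {Y : Type}

/-- Reduction of an integer modulo `N`. -/
def red {N : ℕ} (h : 0 < N) (n : ℤ) : Fin N :=
  ⟨(n % N).toNat, by
    have h1 := Int.emod_nonneg n (show (N : ℤ) ≠ 0 by omega)
    have h2 := Int.emod_lt_of_pos n (show (0 : ℤ) < N by omega)
    omega⟩

lemma red_add {N : ℕ} (h : 0 < N) (n : ℤ) : red h (n + N) = red h n := by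
  simp [red]

lemma red_val {N : ℕ} (h : 0 < N) {n : ℕ} (hn : n < N) : (red h n).val = n := by
  simp only [red]
  rw [Int.emod_eq_of_lt (by omega) (by omega)]
  simp

lemma red_fin {N : ℕ} (h : 0 < N) (k : Fin N) : red h ((k : ℕ) : ℤ) = k :=
  Fin.ext (red_val h k.2)

/-- The closing step: a small perturbation that keeps every gap closed and is not `N`-periodic. -/
lemma exists_closing {en : Y → ℝ} {V : ℤ → ℝ} {N : ℕ} {m : Y → ℂ} (h : Data en V N m)
    (hI : Inv en V N m) {R : Type} [Fintype R] (e : R → Y) (he : Function.Injective e)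
    (hR : ∀ j, Closed V (N + N) (en (e j)))
    (hcc : ∀ j, cc V (N + N) (en (e j)) (en (e j)) (m (e j)) = 0) :
    ∃ᶠ t : (Fin (N + N) → ℝ) × (R → ℝ) in 𝓝 0,
      (∀ j, Closed (fun n => V n + t.1 (red h.double.pos n)) (N + N) (en (e j) + t.2 j)) ∧
      ¬ ∀ n : ℤ, t.1 (red h.double.pos (n + N)) = t.1 (red h.double.pos n) := by
  classical
  have h2 := h.double
  have hI2 := Inv.double h hI
  obtain ⟨g, hg0, hg⟩ := exists_dir hI
  let T := (Fin (N + N) → ℝ) × (R → ℝ)
  let Vt : T → ℤ → ℝ := fun t n => V n + t.1 (red h2.pos n)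
  let Et : R → T → ℝ := fun j t => en (e j) + t.2 j
  have hVt : ∀ n, ContDiff ℝ 1 fun t => Vt t n := by
    intro n; simp only [Vt, T]; fun_prop
  have hEt : ∀ j, ContDiff ℝ 1 (Et j) := by
    intro j; simp only [Et, T]; fun_prop
  have hVt0 : Vt 0 = V := by funext n; simp [Vt]
  have hEt0 : ∀ j, Et j 0 = en (e j) := by intro j; simp [Et]
  let p1 : Fin (N + N) → T →L[ℝ] ℝ := fun k =>
    (ContinuousLinearMap.proj k).comp (ContinuousLinearMap.fst ℝ _ _)
  let p2 : R → T →L[ℝ] ℝ := fun j =>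
    (ContinuousLinearMap.proj j).comp (ContinuousLinearMap.snd ℝ _ _)
  let l : R → ℕ → T →L[ℝ] ℝ := fun j n => p2 j - p1 (red h2.pos n)
  have hl : ∀ j n t, l j n t = t.2 j - t.1 (red h2.pos n) := fun j n t => rfl
  let G : R → ℕ → T → ℂ × ℝ := fun j n t =>
    (ss (Vt t) (Et j t) (m (e j)) (n + 1) * ss V (en (e j)) (m (e j)) (n + 1),
      uu (Vt t) (Et j t) (n + 1) * uu V (en (e j)) (n + 1))
  have hG : ∀ j n, ContDiff ℝ 1 (G j n) := by
    intro j n
    exact ((contDiff_ss hVt (hEt j) _ _).mul contDiff_const).prodMk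
      ((contDiff_rs hVt (hEt j) 0 1 _).mul contDiff_const)
  let Φ : T → R → ℂ × ℝ := fun t j => ∑ n ∈ range (N + N), l j n t • G j n t
  let L : T →L[ℝ] (R → ℂ × ℝ) :=
    ContinuousLinearMap.pi fun j => ∑ n ∈ range (N + N), (l j n).smulRight (G j n 0)
  have hΦ : HasStrictFDerivAt Φ L 0 :=
    hasStrictFDerivAt_pi.2 fun j => hasStrict_sum _ (l j) (G j) (hG j)
  have hΦ0 : Φ 0 = 0 := by funext j; simp [Φ]
  have hL : ∀ t j, L t j =
      (-∑ k : Fin (N + N), (t.1 k : ℂ) * bl en V m (e j, true) (k + 1) ^ 2,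
        t.2 j * c1 V (N + N) (en (e j)) (en (e j)) -
          ∑ k : Fin (N + N), t.1 k * uu V (en (e j)) (k + 1) ^ 2) := by
    intro t j
    have e0 : L t j = ∑ n ∈ range (N + N), (t.2 j - t.1 (red h2.pos n)) • G j n 0 := by
      simp only [L, ContinuousLinearMap.pi_apply, _root_.sum_apply,
        ContinuousLinearMap.smulRight_apply, hl]
    rw [e0]
    refine Prod.ext ?_ ?_
    · simp only [Prod.fst_sum, Prod.smul_fst, G, hVt0, hEt0]
      have hc := hcc j
      rw [cc, sum_range] at hc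
      rw [sum_range]
      have : ∀ k : Fin (N + N), (t.2 j - t.1 (red h2.pos ((k : ℕ) : ℤ))) •
          (ss V (en (e j)) (m (e j)) (k + 1) * ss V (en (e j)) (m (e j)) (k + 1)) =
          (t.2 j : ℂ) * (ss V (en (e j)) (m (e j)) (k + 1) * ss V (en (e j)) (m (e j)) (k + 1)) -
          (t.1 k : ℂ) * bl en V m (e j, true) (k + 1) ^ 2 := by
        intro k
        rw [red_fin, Complex.real_smul]
        simp only [bl, zz, cond_true]
        push_cast; ring
      simp only [this]
      rw [sum_sub_distrib, ← mul_sum, hc]; simp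
    · simp only [Prod.snd_sum, Prod.smul_snd, G, hVt0, hEt0]
      rw [c1, sum_range, sum_range, mul_sum, ← sum_sub_distrib]
      refine sum_congr rfl fun k _ => ?_
      rw [red_fin, smul_eq_mul]; ring
  have hsurj : Function.Surjective L := by
    intro y
    obtain ⟨w, hw⟩ := exists_interp hI2 e he (fun j => (hR j).mu_sq _) (fun j => -(y j).1)
    refine ⟨(w, fun j => ((y j).2 + ∑ k : Fin (N + N), w k * uu V (en (e j)) (k + 1) ^ 2) /
      c1 V (N + N) (en (e j)) (en (e j))), ?_⟩
    funext j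
    rw [hL]
    refine Prod.ext ?_ ?_
    · simp only [hw, neg_neg]
    · have := (c1_pos V h2.pos (en (e j))).ne'
      simp only
      field_simp
      ring
  -- the antiperiodic direction
  let w₀ : Fin (N + N) → ℝ := Fin.append g (-g)
  have hw1 : ∀ k : Fin N, w₀ (Fin.castAdd N k) = g k := fun k => Fin.append_left _ _ _
  have hw2 : ∀ k : Fin N, w₀ (Fin.natAdd N k) = -g k := fun k => Fin.append_right _ _ _
  have hw3 : ∀ j, ∑ k : Fin (N + N), (w₀ k : ℂ) * bl en V m (e j, true) (k + 1) ^ 2 = 0 := by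
    intro j
    rw [Fin.sum_univ_add]
    simp only [hw1, hw2, Fin.val_castAdd, Fin.val_natAdd]
    have e1 : ∀ k : Fin N, bl en V m (e j, true) (N + k + 1) =
        bl en V m (e j, true) N * bl en V m (e j, true) (k + 1) := by
      intro k
      rw [← h.shift]; congr 1; omega
    have e2 : ∑ k : Fin N, ((-g k : ℝ) : ℂ) * bl en V m (e j, true) (N + k + 1) ^ 2 =
        -(bl en V m (e j, true) N ^ 2) *
          ∑ k : Fin N, (g k : ℂ) * bl en V m (e j, true) (k + 1) ^ 2 := by
      rw [mul_sum]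
      refine sum_congr rfl fun k _ => ?_
      rw [e1]; push_cast; ring
    rw [e2]
    have e3 : (bl en V m (e j, true) N ^ 2) ^ 2 = 1 := by
      have := (hR j).mu_sq (m (e j))
      have e4 := h.shift (e j, true) N
      simp only [bl, zz, cond_true] at e4 ⊢
      rw [e4] at this
      linear_combination this
    rcases sq_eq_one_iff.1 e3 with e5 | e5
    · rw [e5]; ring
    · rw [hg _ e5]; ring
  let t₀ : T := (w₀, fun j => (∑ k : Fin (N + N), w₀ k * uu V (en (e j)) (k + 1) ^ 2) /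
      c1 V (N + N) (en (e j)) (en (e j)))
  have ht₀ : L t₀ = 0 := by
    funext j
    rw [hL]
    refine Prod.ext ?_ ?_
    · simp only [t₀, hw3, neg_zero, Pi.zero_apply, Prod.fst_zero]
    · have := (c1_pos V h2.pos (en (e j))).ne'
      simp only [t₀, Pi.zero_apply, Prod.snd_zero]
      field_simp
      ring
  let ℓ : T →L[ℝ] ℝ := ∑ k : Fin N, g k • (p1 (Fin.castAdd N k) - p1 (Fin.natAdd N k))
  have hℓ : ∀ t, ℓ t = ∑ k : Fin N, g k * (t.1 (Fin.castAdd N k) - t.1 (Fin.natAdd N k)) := by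
    intro t
    simp only [ℓ, _root_.sum_apply, _root_.smul_apply,
      _root_.sub_apply, smul_eq_mul]
    rfl
  have hℓ0 : ℓ t₀ ≠ 0 := by
    rw [hℓ]
    simp only [t₀, hw1, hw2]
    obtain ⟨k, hk⟩ := Function.ne_iff.1 hg0
    refine (sum_pos' (fun k _ => by nlinarith [mul_self_nonneg (g k)]) ⟨k, mem_univ _, ?_⟩).ne'
    have : 0 < g k * g k := mul_self_pos.2 hk
    nlinarith
  refine (ift ℓ hΦ hΦ0 hsurj ht₀ hℓ0).mono ?_
  rintro t ⟨ht1, ht2⟩
  refine ⟨fun j => ?_, fun hper => ht2 ?_⟩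
  · have hj := congrFun ht1 j
    have hj1 := congrArg Prod.fst hj
    have hj2 := congrArg Prod.snd hj
    simp only [Φ, Prod.fst_sum, Prod.smul_fst, Prod.snd_sum, Prod.smul_snd, G, hl,
      Pi.zero_apply, Prod.fst_zero, Prod.snd_zero] at hj1 hj2
    have g1 := green_ss (Vt t) V (Et j t) (en (e j)) (m (e j)) (m (e j)) (N + N)
    have g2 := green_uu (Vt t) V (Et j t) (en (e j)) (N + N)
    have q : ∀ n : ℕ, Et j t - Vt t n - (en (e j) - V n) = t.2 j - t.1 (red h2.pos n) := by
      intro n; simp only [Et, Vt]; ring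
    simp only [q] at g1 g2
    simp only [Complex.real_smul] at hj1
    simp only [smul_eq_mul] at hj2
    rw [hj1, (hR j).ss_N, (hR j).ss_N1] at g1
    rw [hj2, (hR j).1, (hR j).2.2] at g2
    have hs := (hR j).sq
    have hs0 : vv V (en (e j)) (N + N) ≠ 0 := by
      intro h0; rw [h0] at hs; simp at hs
    refine closed_of_u (z := m (e j)) (h.im_pos _).ne' ?_ ?_
    · have hs1 : (vv V (en (e j)) (N + N) : ℂ) ≠ 0 := by exact_mod_cast hs0
      apply mul_left_cancel₀ hs1
      simp only [aa]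
      linear_combination g1
    · apply mul_left_cancel₀ hs0
      linear_combination -g2
  · rw [hℓ]
    refine sum_eq_zero fun k _ => ?_
    have := hper (k : ℕ)
    have e1 : red h.double.pos (((k : ℕ) : ℤ) + N) = Fin.natAdd N k := by
      rw [← red_fin h.double.pos (Fin.natAdd N k)]
      congr 1
      simp only [Fin.val_natAdd]; push_cast; ring
    have e2 : red h.double.pos ((k : ℕ) : ℤ) = Fin.castAdd N k := by
      rw [← red_fin h.double.pos (Fin.castAdd N k)]
      rfl
    rw [e1, e2] at this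
    rw [this]; ring

end Pool.Agent.P.MP_c9a3a4_mp
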