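import Pool.Agent.P.MP_c9a3a4_mp.Perturb

set_option autoImplicit false

namespace Pool.Agent.P.MP_c9a3a4_mp

open Finset Filter Topology ComplexConjugate

variable {Y : Type}

/-- A periodic potential whose spectrum stably contains the energies `en y`. -/
def Good [TopologicalSpace Y] (en : Y → ℝ) (V : ℤ → ℝ) (N : ℕ) : Prop :=
  ∃ m : Y → ℂ, Continuous m ∧ Data en V N m ∧ Inv en V N m

lemma Good.double [TopologicalSpace Y] {en : Y → ℝ} {V : ℤ → ℝ} {N : ℕ} (h : Good en V N) :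
    Good en V (N + N) := by
  obtain ⟨m, hm, hD, hI⟩ := h
  exact ⟨m, hm, hD.double, Inv.double hD hI⟩

section coeff

variable {R : Type} [Fintype R]

/-- Leading coefficient of the renormalised quadratic form. -/
def d1 (N : ℕ) (P : ℝ) (Q : R → ℝ) (V : ℤ → ℝ) (E : ℝ) (F : R → ℝ) : ℝ :=
  P * (-uu V E N) + ∑ j, Q j * c1 V N E (F j)
/-- Middle coefficient of the renormalised quadratic form. -/
def d2 (N : ℕ) (P : ℝ) (Q : R → ℝ) (V : ℤ → ℝ) (E : ℝ) (F : R → ℝ) : ℝ :=
  P * (uu V E (N + 1) - vv V E N) + ∑ j, Q j * c2 V N E (F j)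
/-- Constant coefficient of the renormalised quadratic form. -/
def d3 (N : ℕ) (P : ℝ) (Q : R → ℝ) (V : ℤ → ℝ) (E : ℝ) (F : R → ℝ) : ℝ :=
  P * vv V E (N + 1) + ∑ j, Q j * c3 V N E (F j)

lemma d_expand (N : ℕ) (P : ℝ) (Q : R → ℝ) (V : ℤ → ℝ) (E : ℝ) (F : R → ℝ) (z : ℂ) :
    (d1 N P Q V E F : ℂ) * z ^ 2 + d2 N P Q V E F * z + d3 N P Q V E F =
      P * aa V N E z + ∑ j, Q j * cc V N E (F j) z := by
  simp only [d1, d2, d3, aa_eq, cc_expand]
  push_cast
  have : ∑ j, (Q j : ℂ) * (c1 V N E (F j) * z ^ 2 + c2 V N E (F j) * z + c3 V N E (F j)) =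
      (∑ j, (Q j : ℂ) * c1 V N E (F j)) * z ^ 2 + (∑ j, (Q j : ℂ) * c2 V N E (F j)) * z +
        ∑ j, (Q j : ℂ) * c3 V N E (F j) := by
    rw [sum_mul, sum_mul, ← sum_add_distrib, ← sum_add_distrib]
    exact sum_congr rfl fun j _ => by ring
  rw [this]; ring

variable {T : Type*} [TopologicalSpace T] {N : ℕ} {P : T → ℝ} {Q : T → R → ℝ} {V : T → ℤ → ℝ}
  {E : T → ℝ} {F : T → R → ℝ}

lemma continuous_d1 (hP : Continuous P) (hQ : ∀ j, Continuous fun t => Q t j)
    (hV : ∀ n, Continuous fun t => V t n) (hE : Continuous E)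
    (hF : ∀ j, Continuous fun t => F t j) :
    Continuous fun t => d1 N (P t) (Q t) (V t) (E t) (F t) := by
  unfold d1 c1
  refine (hP.mul (continuous_uu hV hE N).neg).add (continuous_finsetSum _ fun j _ =>
    (hQ j).mul (continuous_finsetSum _ fun n _ => ?_))
  exact (continuous_uu hV hE _).mul (continuous_uu hV (hF j) _)

lemma continuous_d2 (hP : Continuous P) (hQ : ∀ j, Continuous fun t => Q t j)
    (hV : ∀ n, Continuous fun t => V t n) (hE : Continuous E)
    (hF : ∀ j, Continuous fun t => F t j) :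
    Continuous fun t => d2 N (P t) (Q t) (V t) (E t) (F t) := by
  unfold d2 c2
  refine (hP.mul ((continuous_uu hV hE _).sub (continuous_vv hV hE N))).add
    (continuous_finsetSum _ fun j _ => (hQ j).mul (continuous_finsetSum _ fun n _ => ?_))
  exact ((continuous_uu hV hE _).mul (continuous_vv hV (hF j) _)).add
    ((continuous_vv hV hE _).mul (continuous_uu hV (hF j) _))

lemma continuous_d3 (hP : Continuous P) (hQ : ∀ j, Continuous fun t => Q t j)
    (hV : ∀ n, Continuous fun t => V t n) (hE : Continuous E)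
    (hF : ∀ j, Continuous fun t => F t j) :
    Continuous fun t => d3 N (P t) (Q t) (V t) (E t) (F t) := by
  unfold d3 c3
  refine (hP.mul (continuous_vv hV hE _)).add (continuous_finsetSum _ fun j _ =>
    (hQ j).mul (continuous_finsetSum _ fun n _ => ?_))
  exact (continuous_vv hV hE _).mul (continuous_vv hV (hF j) _)

lemma aa_fix_zero {N : ℕ} {P : ℝ} {Q : R → ℝ} {V : ℤ → ℝ} {E : ℝ} {F : R → ℝ}
    (hF : ∀ j, Closed V N (F j))
    (hd : 0 < 4 * d1 N P Q V E F * d3 N P Q V E F - d2 N P Q V E F ^ 2) :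
    aa V N E (fix (d1 N P Q V E F) (d2 N P Q V E F) (d3 N P Q V E F)) = 0 := by
  by_cases hE : ∃ j, E = F j
  · obtain ⟨j, rfl⟩ := hE
    exact (hF j).aa_zero _
  push Not at hE
  have key : ∀ z : ℂ, (d1 N P Q V E F : ℂ) * z ^ 2 + d2 N P Q V E F * z + d3 N P Q V E F =
      (P + ∑ j, (Q j : ℂ) * (vv V (F j) N / ((E - F j : ℝ) : ℂ))) * aa V N E z := by
    intro z
    rw [d_expand, add_mul, sum_mul]
    congr 1
    refine sum_congr rfl fun j _ => ?_
    have h1 := cc_eq (hF j) E z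
    have h2 : ((E - F j : ℝ) : ℂ) ≠ 0 := by exact_mod_cast sub_ne_zero.2 (hE j)
    have h3 : cc V N E (F j) z = vv V (F j) N * aa V N E z / ((E - F j : ℝ) : ℂ) := by
      rw [← h1]; field_simp
    rw [h3]; ring
  have h0 := key 0
  have h1 := key (fix (d1 N P Q V E F) (d2 N P Q V E F) (d3 N P Q V E F))
  rw [(fix_spec hd).2] at h1
  rcases mul_eq_zero.1 h1.symm with h2 | h2
  · rw [h2] at h0
    have h3 : d3 N P Q V E F = 0 := by simpa using h0
    rw [h3] at hd
    nlinarith [sq_nonneg (d2 N P Q V E F)]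
  · exact h2

lemma d1_ne_zero [DecidableEq R] {N : ℕ} (hN : 0 < N) {V : ℤ → ℝ} {E : ℝ} {F : R → ℝ}
    (hFi : Function.Injective F) (hF : ∀ j, Closed V N (F j))
    (hE : (∀ j, E ≠ F j) → uu V E N ≠ 0) :
    d1 N (∏ j, (E - F j)) (fun j => (∏ k ∈ univ.erase j, (E - F k)) * vv V (F j) N) V E F ≠ 0 := by
  by_cases h : ∃ j, E = F j
  · obtain ⟨j, rfl⟩ := h
    unfold d1
    rw [(hF j).1, sum_eq_single j]
    · have h1 : ∏ k ∈ univ.erase j, (F j - F k) ≠ 0 :=
        prod_ne_zero_iff.2 fun k hk => sub_ne_zero.2 fun h => (mem_erase.1 hk).1 (hFi h).symm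
      have h2 : vv V (F j) N ≠ 0 := by
        intro h0
        have := (hF j).sq
        rw [h0] at this; simp at this
      have h3 := (c1_pos V hN (F j)).ne'
      simp [h1, h2, h3]
    · intro k _ hk
      have : ∏ i ∈ univ.erase k, (F j - F i) = 0 :=
        prod_eq_zero (i := j) (mem_erase.2 ⟨hk.symm, mem_univ _⟩) (sub_self _)
      simp [this]
    · simp
  · push Not at h
    have hu := hE h
    have hP : ∏ j, (E - F j) ≠ 0 := prod_ne_zero_iff.2 fun k _ => sub_ne_zero.2 (h k)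
    have e : d1 N (∏ j, (E - F j)) (fun j => (∏ k ∈ univ.erase j, (E - F k)) * vv V (F j) N) V E F
        = -uu V E N * (∏ j, (E - F j)) * (1 + ∑ j, 1 / (E - F j) ^ 2) := by
      unfold d1
      rw [mul_add, mul_sum]
      congr 1
      · ring
      refine sum_congr rfl fun j _ => ?_
      have h1 := c1_eq (hF j) E
      have h2 := sub_ne_zero.2 (h j)
      have h3 : c1 V N E (F j) = -(vv V (F j) N * uu V E N) / (E - F j) := by
        rw [← h1]; field_simp
      have h4 := mul_prod_erase univ (fun k => E - F k) (mem_univ j)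
      have h5 := (hF j).sq
      rw [h3, ← h4]
      field_simp
      linear_combination (-(∏ k ∈ univ.erase j, (E - F k))) * h5
    rw [e]
    have : 0 < 1 + ∑ j, 1 / (E - F j) ^ 2 := by positivity
    exact mul_ne_zero (mul_ne_zero (neg_ne_zero.2 hu) hP) this.ne'

end coeff

/-- The inductive step. -/
lemma Good.step [TopologicalSpace Y] [CompactSpace Y] (hY : ∀ y : Y, (𝓝[≠] y).NeBot) {en : Y → ℝ}
    (hen : Continuous en) (hinj : Function.Injective en) {V : ℤ → ℝ} {N : ℕ}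
    (h : Good en V N) {δ : ℝ} (hδ : 0 < δ) :
    ∃ W : ℤ → ℝ, (∀ n, |W n| ≤ δ) ∧ Good en (fun n => V n + W n) (N + N) ∧
      ¬ ∀ n : ℤ, W (n + N) = W n := by
  classical
  obtain ⟨m, hm, hD, hI⟩ := h
  have h2 := hD.double
  have hI2 := Inv.double hD hI
  let R := {y : Y // bl en V m (y, true) (N + N) ^ 2 = 1}
  have : Finite R := by
    have := hI2.finite 1
    refine Finite.of_injective (β := {x : Y × Bool // bl en V m x (N + N) ^ 2 = 1})
      (fun y => ⟨(y.1, true), y.2⟩) ?_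
    intro a b hab
    simp only [Subtype.mk.injEq, Prod.mk.injEq, and_true] at hab
    exact Subtype.ext hab
  have : Fintype R := Fintype.ofFinite R
  have hR : ∀ j : R, Closed V (N + N) (en j.1) := fun j =>
    closed_of_sq (h2.im_pos j.1).ne' (h2.bloch j.1) j.2
  have hcc : ∀ (j : R) (y : Y), cc V (N + N) (en y) (en j.1) (m y) = 0 := fun j y =>
    cc_root_zero hY hen hinj h2 hm (hR j) y
  have hfr := exists_closing hD hI (fun j : R => j.1) Subtype.val_injective hR
    (fun j => hcc j j.1)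
  let T := (Fin (N + N) → ℝ) × (R → ℝ)
  let Vt : T → ℤ → ℝ := fun t n => V n + t.1 (red h2.pos n)
  let Ft : T → R → ℝ := fun t j => en j.1 + t.2 j
  let P : Y → ℝ := fun y => ∏ j : R, (en y - en j.1)
  let Q : Y → R → ℝ := fun y j => (∏ k ∈ univ.erase j, (en y - en k.1)) * vv V (en j.1) (N + N)
  let D1 : T × Y → ℝ := fun p => d1 (N + N) (P p.2) (Q p.2) (Vt p.1) (en p.2) (Ft p.1)
  let D2 : T × Y → ℝ := fun p => d2 (N + N) (P p.2) (Q p.2) (Vt p.1) (en p.2) (Ft p.1)
  let D3 : T × Y → ℝ := fun p => d3 (N + N) (P p.2) (Q p.2) (Vt p.1) (en p.2) (Ft p.1)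
  have hVt : ∀ n, Continuous fun t => Vt t n := by
    intro n; simp only [Vt, T]; fun_prop
  have hP : Continuous fun p : T × Y => P p.2 := by simp only [P]; fun_prop
  have hQ : ∀ j, Continuous fun p : T × Y => Q p.2 j := by intro j; simp only [Q]; fun_prop
  have hV' : ∀ n, Continuous fun p : T × Y => Vt p.1 n := fun n => (hVt n).comp continuous_fst
  have hE' : Continuous fun p : T × Y => en p.2 := hen.comp continuous_snd
  have hF' : ∀ j, Continuous fun p : T × Y => Ft p.1 j := by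
    intro j; simp only [Ft, T]; fun_prop
  have cD1 : Continuous D1 := continuous_d1 hP hQ hV' hE' hF'
  have cD2 : Continuous D2 := continuous_d2 hP hQ hV' hE' hF'
  have cD3 : Continuous D3 := continuous_d3 hP hQ hV' hE' hF'
  let M : T → Y → ℂ := fun t y => fix (D1 (t, y)) (D2 (t, y)) (D3 (t, y))
  have hVt0 : Vt 0 = V := by funext n; simp [Vt]
  have hFt0 : Ft 0 = fun j => en j.1 := by funext j; simp [Ft]
  have hD10 : ∀ y, D1 (0, y) ≠ 0 := by
    intro y
    simp only [D1, hVt0, hFt0, P, Q]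
    refine d1_ne_zero (F := fun j : R => en j.1) h2.pos (hinj.comp Subtype.val_injective) hR ?_
    intro hy hu
    have := (closed_of_u (h2.im_pos y).ne' (h2.bloch y) hu).mu_sq (m y)
    exact hy ⟨y, this⟩ rfl
  have hM0 : ∀ y, 0 < 4 * D1 (0, y) * D3 (0, y) - D2 (0, y) ^ 2 ∧ M 0 y = m y := by
    intro y
    refine fix_unique (h2.im_pos y) ?_ (hD10 y)
    simp only [D1, D2, D3, hVt0, hFt0]
    rw [d_expand, h2.bloch]
    simp [hcc]
  have hM0' : M 0 = m := funext fun y => (hM0 y).2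
  have ev1 : ∀ᶠ t in 𝓝 (0 : T), ∀ y, 0 < 4 * D1 (t, y) * D3 (t, y) - D2 (t, y) ^ 2 := by
    have := (isCompact_univ (X := Y)).eventually_forall_of_forall_eventually (x₀ := (0 : T))
      (P := fun t y => 0 < 4 * D1 (t, y) * D3 (t, y) - D2 (t, y) ^ 2) ?_
    · filter_upwards [this] with t ht y
      exact ht y trivial
    intro y _
    have hc : Continuous fun p : T × Y => 4 * D1 p * D3 p - D2 p ^ 2 := by fun_prop
    exact hc.continuousAt.eventually (lt_mem_nhds (hM0 y).1)
  have ev2 := eventually_not_bad hen (t₀ := (0 : T)) (V := Vt) (M := M) (N := N + N) hVt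
    (fun y => continuousAt_fix cD1 cD2 cD3 (hD10 y)) (by rw [hVt0, hM0']; exact h2)
    (by rw [hVt0, hM0']; exact hI2)
  have ev3 : ∀ᶠ t in 𝓝 (0 : T), ‖t.1‖ < δ := by
    have hc : Continuous fun t : T => ‖t.1‖ := by fun_prop
    exact hc.continuousAt.eventually (gt_mem_nhds (by simpa using hδ))
  obtain ⟨t, ⟨ht1, ht2⟩, ht3, ht4, ht5⟩ := (hfr.and_eventually (ev1.and (ev2.and ev3))).exists
  have hDt : Data en (Vt t) (N + N) (M t) :=
    { pos := h2.pos
      per := fun n => by simp only [Vt]; rw [h2.per, red_add]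
      im_pos := fun y => (fix_spec (ht3 y)).1
      bloch := fun y => aa_fix_zero ht1 (ht3 y) }
  refine ⟨fun n => t.1 (red h2.pos n), fun n => (norm_le_pi_norm t.1 _).trans ht5.le,
    ⟨M t, ?_, hDt, inv_of_not_bad hinj hDt ht4⟩, ht2⟩
  refine continuous_iff_continuousAt.2 fun y => ?_
  have hy : Continuous fun y : Y => (t, y) := by fun_prop
  refine continuousAt_fix (cD1.comp hy) (cD2.comp hy) (cD3.comp hy) ?_
  intro h0
  have := ht3 y
  have h0' : D1 (t, y) = 0 := h0
  rw [h0'] at this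
  nlinarith [sq_nonneg (D2 (t, y))]

/-- A good potential is approximated by good potentials without a prescribed period. -/
lemma Good.avoid [TopologicalSpace Y] [CompactSpace Y] (hY : ∀ y : Y, (𝓝[≠] y).NeBot)
    {en : Y → ℝ} (hen : Continuous en) (hinj : Function.Injective en) {V : ℤ → ℝ} {N : ℕ}
    (h : Good en V N) {δ : ℝ} (hδ : 0 < δ) {p : ℕ} (hp : 0 < p) :
    ∃ (W : ℤ → ℝ) (N' : ℕ), (∀ n, |W n| ≤ δ) ∧ Good en (fun n => V n + W n) N' ∧
      ¬ ∀ n : ℤ, V (n + p) + W (n + p) = V n + W n := by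
  obtain ⟨k, o, ⟨c, hc⟩, rfl⟩ := Nat.exists_eq_two_pow_mul_odd hp.ne'
  have hk : ∀ k : ℕ, Good en V (2 ^ k * N) := by
    intro k
    induction k with
    | zero => simpa using h
    | succ k ih =>
      have := ih.double
      rwa [show 2 ^ k * N + 2 ^ k * N = 2 ^ (k + 1) * N by ring] at this
  obtain ⟨W, hW, hG, hne⟩ := (hk k).step hY hen hinj hδ
  refine ⟨W, _, hW, hG, fun hper => hne fun n => ?_⟩
  obtain ⟨m, -, hD, -⟩ := hG
  obtain ⟨m', -, hD', -⟩ := hk k
  have p1 : Function.Periodic (fun n => V n + W n) ((2 ^ k * o : ℕ) : ℤ) := hper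
  have p2 : Function.Periodic (fun n => V n + W n) ((2 ^ k * N + 2 ^ k * N : ℕ) : ℤ) := hD.per
  have p3 := (p1.nat_mul N).sub_period (p2.nat_mul c)
  have e : (N : ℤ) * ((2 ^ k * o : ℕ) : ℤ) - (c : ℤ) * ((2 ^ k * N + 2 ^ k * N : ℕ) : ℤ) =
      ((2 ^ k * N : ℕ) : ℤ) := by
    rw [hc]; push_cast; ring
  rw [e] at p3
  have := p3 n
  simp only [hD'.per] at this
  linarith

end Pool.Agent.P.MP_c9a3a4_mp
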