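import Pool.Agent.P.MP_c9a3a4_mp.Base

set_option autoImplicit false

namespace Pool.Agent.P.MP_c9a3a4_mp

open Finset Filter Topology ComplexConjugate BoundedContinuousFunction

/-- A finitely supported element of the sequence space. -/
noncomputable def trunc (s : Finset ℤ) (g : ℤ → ℂ) : lp (fun _ : ℤ => ℂ) 2 :=
  ∑ i ∈ s, lp.single 2 i (g i)

lemma trunc_apply (s : Finset ℤ) (g : ℤ → ℂ) (n : ℤ) :
    trunc s g n = if n ∈ s then g n else 0 := by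
  simp only [trunc, lp.coeFn_sum, lp.coeFn_single, Finset.sum_apply, Finset.sum_pi_single]

lemma norm_trunc_sq (s : Finset ℤ) (g : ℤ → ℂ) : ‖trunc s g‖ ^ 2 = ∑ i ∈ s, ‖g i‖ ^ 2 := by
  have := lp.norm_sum_single (p := 2) (E := fun _ : ℤ => ℂ) (by norm_num) g s
  simpa [trunc] using this

lemma norm_trunc_single (i : ℤ) (g : ℤ → ℂ) : ‖trunc {i} g‖ = ‖g i‖ := by
  simp only [trunc, sum_singleton]
  exact lp.norm_single (by norm_num) _ _

lemma norm_ss_shift {V : ℤ → ℝ} {N : ℕ} {E : ℝ} {z : ℂ} (hV : ∀ n : ℤ, V (n + N) = V n)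
    (hz : z.im ≠ 0) (h : aa V N E z = 0) (L n : ℕ) : ‖ss V E z (n + L * N)‖ = ‖ss V E z n‖ := by
  induction L with
  | zero => simp
  | succ k ih =>
    have : n + (k + 1) * N = (n + k * N) + N := by ring
    rw [this, ss_shift hV h, norm_mul, norm_mu hz h, one_mul, ih]

lemma sum_ss_ge {V : ℤ → ℝ} {N : ℕ} (hN : 0 < N) {E : ℝ} {z : ℂ} (hV : ∀ n : ℤ, V (n + N) = V n)
    (hz : z.im ≠ 0) (h : aa V N E z = 0) (L : ℕ) :
    L * ‖z‖ ^ 2 ≤ ∑ n ∈ range (L * N), ‖ss V E z (n + 1)‖ ^ 2 := by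
  induction L with
  | zero => simp
  | succ k ih =>
    rw [add_mul k 1 N, one_mul, sum_range_add]
    have h1 : ‖ss V E z (k * N + 0 + 1)‖ ^ 2 ≤ ∑ n ∈ range N, ‖ss V E z (k * N + n + 1)‖ ^ 2 :=
      single_le_sum (f := fun n => ‖ss V E z (k * N + n + 1)‖ ^ 2) (fun _ _ => by positivity)
        (mem_range.2 hN)
    have h2 : k * N + 0 + 1 = 1 + k * N := by ring
    rw [h2, norm_ss_shift hV hz h, ss_one] at h1
    push_cast
    linarith

/-- Weyl sequences: a uniform limit of potentials with Bloch solutions keeps the energy in its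
spectrum. -/
lemma weyl {V' : ℤ → ℝ} {E : ℝ}
    (happrox : ∀ δ : ℝ, 0 < δ → ∃ (V : ℤ → ℝ) (N : ℕ) (z : ℂ), 0 < N ∧
      (∀ n : ℤ, V (n + N) = V n) ∧ z.im ≠ 0 ∧ aa V N E z = 0 ∧ ∀ n, |V' n - V n| ≤ δ) :
    ¬ ((∃ R : lp (fun _ : ℤ => ℂ) 2 →L[ℂ] lp (fun _ : ℤ => ℂ) 2,
              ∀ φ : lp (fun _ : ℤ => ℂ) 2, ∀ n : ℤ,
                R φ (n + 1) + R φ (n - 1) + ((V' n : ℂ) - (E : ℂ)) * R φ n = φ n) ∧
            (∀ ψ : ℤ → ℂ, Memℓp ψ 2 →
              (∀ n : ℤ, ψ (n + 1) + ψ (n - 1) + ((V' n : ℂ) - (E : ℂ)) * ψ n = 0) →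
              ψ = 0)) := by
  rintro ⟨⟨R, hR⟩, hinj⟩
  have hR0 := norm_nonneg R
  obtain ⟨V, N, z, hN, hV, hz, h, hδ⟩ := happrox (1 / (2 * (‖R‖ + 1))) (by positivity)
  have hz0 : 0 < ‖z‖ := norm_pos_iff.2 (by rintro rfl; simp at hz)
  obtain ⟨L, hL⟩ := exists_nat_gt ((4 * ‖R‖ * (1 + ‖z‖)) ^ 2 / ‖z‖ ^ 2)
  have hL0 : 0 < L := by
    have : (0 : ℝ) < L := lt_of_le_of_lt (by positivity) hL
    exact_mod_cast this
  set K : ℕ := L * N with hK
  have hK0 : 0 < K := Nat.mul_pos hL0 hN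
  let b : ℤ → ℂ := fun n => ss V E z (n + 1).toNat
  have hb : ∀ n : ℤ, 0 ≤ n → b (n + 1) + b (n - 1) + ((V n : ℂ) - E) * b n = 0 := by
    intro n hn
    obtain ⟨k, rfl⟩ := Int.eq_ofNat_of_zero_le hn
    have e1 : ((k : ℤ) + 1 + 1).toNat = k + 2 := by omega
    have e2 : ((k : ℤ) - 1 + 1).toNat = k := by omega
    have e3 : ((k : ℤ) + 1).toNat = k + 1 := by omega
    simp only [b, e1, e2, e3, ss_rec]
    push_cast; ring
  let s : Finset ℤ := Finset.Ico 0 K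
  let ψ := trunc s b
  let φ₁ := trunc {-1} (fun n => b (n + 1))
  let φ₂ := trunc {0} (fun n => -b (n - 1))
  let φ₃ := trunc {(K : ℤ) - 1} (fun n => -b (n + 1))
  let φ₄ := trunc {(K : ℤ)} (fun n => b (n - 1))
  let φ₅ := trunc s (fun n => ((V' n : ℂ) - V n) * b n)
  let φ := φ₁ + φ₂ + φ₃ + φ₄ + φ₅
  have hφ : ∀ n : ℤ, ψ (n + 1) + ψ (n - 1) + ((V' n : ℂ) - (E : ℂ)) * ψ n = φ n := by
    intro n
    simp only [φ, lp.coeFn_add, Pi.add_apply, ψ, φ₁, φ₂, φ₃, φ₄, φ₅, trunc_apply, s,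
      Finset.mem_Ico, mem_singleton]
    split_ifs <;> first | omega | linear_combination hb n (by omega) | ring
  have hψ : R φ = ψ := by
    have := hinj (R φ - ψ : lp (fun _ : ℤ => ℂ) 2) (lp.memℓp _) (fun n => by
      simp only [lp.coeFn_sub, Pi.sub_apply]
      linear_combination hR φ n - hφ n)
    have h2 : R φ - ψ = 0 := lp.ext this
    exact sub_eq_zero.1 h2
  have n1 : ‖φ₁‖ = ‖z‖ := by simp [φ₁, norm_trunc_single, b]
  have n2 : ‖φ₂‖ = 1 := by simp [φ₂, norm_trunc_single, b]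
  have n3 : ‖φ₃‖ = ‖z‖ := by
    have e : ((K : ℤ) - 1 + 1 + 1).toNat = 1 + L * N := by omega
    simp only [φ₃, norm_trunc_single, b, norm_neg, e, norm_ss_shift hV hz h, ss_one]
  have n4 : ‖φ₄‖ = 1 := by
    have e : ((K : ℤ) - 1 + 1).toNat = 0 + L * N := by omega
    simp only [φ₄, norm_trunc_single, b, e, norm_ss_shift hV hz h, ss_zero, norm_one]
  have n5 : ‖φ₅‖ ≤ 1 / (2 * (‖R‖ + 1)) * ‖ψ‖ := by
    have : ‖φ₅‖ ≤ ‖((1 / (2 * (‖R‖ + 1)) : ℝ) : ℂ) • ψ‖ := by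
      refine lp.norm_mono (by norm_num) fun n => ?_
      simp only [φ₅, ψ, lp.coeFn_smul, Pi.smul_apply, trunc_apply, smul_eq_mul]
      split_ifs
      · rw [norm_mul, norm_mul]
        refine mul_le_mul_of_nonneg_right ?_ (norm_nonneg _)
        rw [← Complex.ofReal_sub, Complex.norm_real, Complex.norm_real, Real.norm_eq_abs,
          Real.norm_eq_abs]
        exact (hδ n).trans (le_abs_self _)
      · simp
    rw [norm_smul, Complex.norm_real, Real.norm_eq_abs, abs_of_pos (by positivity)] at this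
    exact this
  have n6 : ‖φ‖ ≤ 2 * (1 + ‖z‖) + 1 / (2 * (‖R‖ + 1)) * ‖ψ‖ := by
    have a1 := norm_add_le (φ₁ + φ₂ + φ₃ + φ₄) φ₅
    have a2 := norm_add_le (φ₁ + φ₂ + φ₃) φ₄
    have a3 := norm_add_le (φ₁ + φ₂) φ₃
    have a4 := norm_add_le φ₁ φ₂
    simp only [φ]
    linarith
  have n7 : ‖ψ‖ ≤ ‖R‖ * ‖φ‖ := by rw [← hψ]; exact R.le_opNorm φ
  have hψ0 := norm_nonneg ψ
  have n8 : ‖ψ‖ ≤ 4 * ‖R‖ * (1 + ‖z‖) := by
    have a1 : ‖R‖ * (1 / (2 * (‖R‖ + 1))) ≤ 1 / 2 := by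
      rw [mul_one_div, div_le_div_iff₀ (by positivity) (by positivity)]
      linarith
    have a2 := mul_le_mul_of_nonneg_left n6 hR0
    have a3 := mul_le_mul_of_nonneg_right a1 hψ0
    nlinarith
  have n9 : L * ‖z‖ ^ 2 ≤ ‖ψ‖ ^ 2 := by
    rw [norm_trunc_sq]
    refine (sum_ss_ge hN hV hz h L).trans (le_of_eq ?_)
    simp only [s, Int.Ico_eq_finset_map, sum_map, b]
    have e : ((K : ℤ) - 0).toNat = L * N := by omega
    rw [e]
    refine sum_congr rfl fun n _ => ?_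
    congr 3
    simp
  rw [div_lt_iff₀ (by positivity)] at hL
  have := pow_le_pow_left₀ hψ0 n8 2
  linarith

/-- Baire category argument. -/
lemma exists_limit {Y : Type} [TopologicalSpace Y] [CompactSpace Y]
    (hY : ∀ y : Y, (𝓝[≠] y).NeBot) {en : Y → ℝ} (hen : Continuous en)
    (hinj : Function.Injective en) {V : ℤ → ℝ} {N : ℕ} (h : Good en V N) {ε : ℝ} (hε : 0 < ε) :
    ∃ V' : ℤ → ℝ, (∀ n, |V' n - V n| < ε) ∧
      (∀ δ : ℝ, 0 < δ → ∃ (V₁ : ℤ → ℝ) (N₁ : ℕ), Good en V₁ N₁ ∧ ∀ n, |V' n - V₁ n| < δ) ∧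
      ∀ p : ℕ, 0 < p → ¬ ∀ n : ℤ, V' (n + p) = V' n := by
  let G : Set (ℤ →ᵇ ℝ) := {b | ∃ N₁, Good en (fun n => V n + b n) N₁}
  have : CompleteSpace (closure G) := isClosed_closure.completeSpace_coe
  let U : ℕ → Set (closure G) := fun p =>
    {b | ¬ ∀ n : ℤ, V (n + (p + 1 : ℕ)) + b.1 (n + (p + 1 : ℕ)) = V n + b.1 n}
  have hUo : ∀ p, IsOpen (U p) := by
    intro p
    refine IsClosed.isOpen_compl (s := {b : closure G |
      ∀ n : ℤ, V (n + (p + 1 : ℕ)) + b.1 (n + (p + 1 : ℕ)) = V n + b.1 n}) (self := ?_)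
    rw [Set.ofPred_forall]
    refine isClosed_iInter fun n => isClosed_eq ?_ ?_ <;> fun_prop
  have hUd : ∀ p, Dense (U p) := by
    intro p
    rw [Metric.dense_iff]
    rintro ⟨b, hb⟩ r hr
    obtain ⟨b₁, ⟨N₁, hb₁⟩, hd⟩ := Metric.mem_closure_iff.1 hb (r / 2) (by positivity)
    obtain ⟨W, N', hW, hG, hne⟩ := hb₁.avoid hY hen hinj (δ := r / 4) (by positivity)
      (p := p + 1) (by omega)
    let w : ℤ →ᵇ ℝ := ofNormedAddCommGroupDiscrete W (r / 4) hW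
    have hw : ‖w‖ ≤ r / 4 := (norm_le (by positivity)).2 hW
    have hmem : b₁ + w ∈ G := ⟨N', by
      have : (fun n => V n + (b₁ + w) n) = fun n => V n + b₁ n + W n := by
        funext n; simp [w, add_assoc]
      rw [this]; exact hG⟩
    refine ⟨⟨b₁ + w, subset_closure hmem⟩, ?_, ?_⟩
    · rw [Metric.mem_ball, Subtype.dist_eq]
      have a1 := dist_triangle (b₁ + w) b₁ b
      have a2 : dist (b₁ + w) b₁ = ‖w‖ := by simp
      rw [dist_comm] at hd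
      simp only
      linarith
    · intro hall
      apply hne
      intro n
      have := hall n
      simpa [w, add_assoc] using this
  have hD := dense_iInter_of_isOpen hUo hUd
  have h0 : (0 : ℤ →ᵇ ℝ) ∈ G := ⟨N, by simpa using h⟩
  obtain ⟨⟨b, hb⟩, hb1, hb2⟩ := Metric.dense_iff.1 hD ⟨0, subset_closure h0⟩ ε hε
  rw [Metric.mem_ball, Subtype.dist_eq, dist_zero_right] at hb1
  refine ⟨fun n => V n + b n, fun n => ?_, fun δ hδ => ?_, fun p hp => ?_⟩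
  · have := b.norm_coe_le_norm n
    simp only [add_sub_cancel_left]
    exact lt_of_le_of_lt this hb1
  · obtain ⟨b₁, ⟨N₁, hb₁⟩, hd⟩ := Metric.mem_closure_iff.1 hb δ hδ
    refine ⟨_, N₁, hb₁, fun n => ?_⟩
    have := dist_coe_le_dist (f := b) (g := b₁) n
    rw [Real.dist_eq] at this
    simp only [add_sub_add_left_eq_sub]
    exact lt_of_le_of_lt this hd
  · obtain ⟨q, rfl⟩ : ∃ q, p = q + 1 := ⟨p - 1, by omega⟩
    exact Set.mem_iInter.1 hb2 q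

end Pool.Agent.P.MP_c9a3a4_mp
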